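import Mathlib

set_option autoImplicit false

namespace Pool.Agent.H743R3

/-- The value set. -/
abbrev V := ZMod 2 × ZMod 2

/-- Extension property of a colouring of finite sets. -/
def EP {W : Type} [DecidableEq W] (M : Finset W → V) : Prop :=
  ∀ (F : Finset W) (Φ : Finset W → V), ∃ y, y ∉ F ∧ ∀ s, s ⊆ F → M (insert y s) = Φ s

theorem exists_dec : ∃ dec : ℕ → (Finset ℕ →₀ V), Function.Surjective dec :=
  exists_surjective_nat _

noncomputable def dec : ℕ → (Finset ℕ →₀ V) := Classical.choose exists_dec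

theorem dec_surj : Function.Surjective dec := Classical.choose_spec exists_dec

noncomputable def lam (s : Finset ℕ) : V :=
  if h : s.Nonempty then dec (Nat.unpair (s.max' h)).1 (s.erase (s.max' h)) else 0

theorem lam_EP : EP lam := by
  classical
  intro F Φ
  obtain ⟨m, hm⟩ := dec_surj (Finsupp.indicator F.powerset (fun s _ => Φ s))
  set t := F.sup id + 1 with ht
  set y := Nat.pair m t with hy
  have hyF : ∀ x ∈ F, x < y := by
    intro x hx
    have h1 : x ≤ F.sup id := Finset.le_sup (f := id) hx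
    have h2 : t ≤ y := Nat.right_le_pair m t
    omega
  have hnot : y ∉ F := fun h => lt_irrefl _ (hyF y h)
  refine ⟨y, hnot, ?_⟩
  intro s hs
  have hne : (insert y s).Nonempty := Finset.insert_nonempty _ _
  have hmax : (insert y s).max' hne = y := by
    apply le_antisymm
    · apply Finset.max'_le
      intro z hz
      rcases Finset.mem_insert.1 hz with h | h
      · exact h.le
      · exact (hyF z (hs h)).le
    · exact Finset.le_max' _ _ (Finset.mem_insert_self _ _)
  have hys : y ∉ s := fun h => hnot (hs h)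
  unfold lam
  rw [dif_pos hne, hmax, hy, Nat.unpair_pair]
  simp only
  rw [← hy, Finset.erase_insert hys, hm, Finsupp.indicator_of_mem (Finset.mem_powerset.2 hs)]

section BF

variable {Z W : Type} [DecidableEq Z] [DecidableEq W]

/-- finite partial embeddings -/
def PE (L : Finset Z → V) (M : Finset W → V) (p : Finset (Z × W)) : Prop :=
  (∀ a ∈ p, ∀ b ∈ p, a.1 = b.1 ↔ a.2 = b.2) ∧
  ∀ q, q ⊆ p → q.Nonempty → L (q.image Prod.fst) = M (q.image Prod.snd)

theorem forth {L : Finset Z → V} {M : Finset W → V} (hM : EP M) {p : Finset (Z × W)}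
    (hp : PE L M p) (z : Z) : ∃ p', p ⊆ p' ∧ PE L M p' ∧ ∃ w, (z, w) ∈ p' := by
  classical
  by_cases hz : ∃ w, (z, w) ∈ p
  · exact ⟨p, Finset.Subset.refl _, hp, hz⟩
  · have hM' := hM (p.image Prod.snd)
      (fun t : Finset W => L (insert z ((p.filter (fun a : Z × W => a.2 ∈ t)).image Prod.fst)))
    obtain ⟨y, hy, hyΦ⟩ := hM'
    refine ⟨insert (z, y) p, Finset.subset_insert _ _, ⟨?_, ?_⟩, y, Finset.mem_insert_self _ _⟩
    · intro a ha b hb
      rcases Finset.mem_insert.1 ha with rfl | ha'
      · rcases Finset.mem_insert.1 hb with rfl | hb'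
        · simp
        · constructor
          · intro h
            exact absurd ⟨b.2, by rw [show z = b.1 from h]; exact hb'⟩ hz
          · intro h
            exact absurd (Finset.mem_image.2 ⟨b, hb', h.symm⟩) hy
      · rcases Finset.mem_insert.1 hb with rfl | hb'
        · constructor
          · intro h
            exact absurd ⟨a.2, by rw [show z = a.1 from h.symm]; exact ha'⟩ hz
          · intro h
            exact absurd (Finset.mem_image.2 ⟨a, ha', h⟩) hy
        · exact hp.1 a ha' b hb'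
    · intro q hq hqne
      by_cases hmem : (z, y) ∈ q
      · set q0 := q.erase (z, y) with hq0
        have hqq : q = insert (z, y) q0 := (Finset.insert_erase hmem).symm
        have hq0p : q0 ⊆ p := by
          intro a ha
          have ha' : a ∈ q := Finset.mem_of_mem_erase ha
          rcases Finset.mem_insert.1 (hq ha') with h | h
          · exact absurd h (Finset.ne_of_mem_erase ha)
          · exact h
        have hfilt : p.filter (fun a => a.2 ∈ q0.image Prod.snd) = q0 := by
          ext a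
          simp only [Finset.mem_filter, Finset.mem_image]
          constructor
          · rintro ⟨hap, b, hb, hba⟩
            have h1 := (hp.1 b (hq0p hb) a hap).2 hba
            have : b = a := Prod.ext h1 hba
            rw [← this]; exact hb
          · intro ha
            exact ⟨hq0p ha, a, ha, rfl⟩
        have hsub : q0.image Prod.snd ⊆ p.image Prod.snd := Finset.image_subset_image hq0p
        have := hyΦ _ hsub
        rw [hqq, Finset.image_insert, Finset.image_insert]
        simp only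
        rw [this, hfilt]
      · apply hp.2 q _ hqne
        intro a ha
        rcases Finset.mem_insert.1 (hq ha) with h | h
        · rw [h] at ha; exact absurd ha hmem
        · exact h

theorem PE.swap {L : Finset Z → V} {M : Finset W → V} {p : Finset (Z × W)} (hp : PE L M p) :
    PE M L (p.image Prod.swap) := by
  classical
  constructor
  · intro a ha b hb
    obtain ⟨a', ha', rfl⟩ := Finset.mem_image.1 ha
    obtain ⟨b', hb', rfl⟩ := Finset.mem_image.1 hb
    exact (hp.1 a' ha' b' hb').symm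
  · intro q hq hqne
    have hq' : q.image Prod.swap ⊆ p := by
      intro a ha
      obtain ⟨b, hb, rfl⟩ := Finset.mem_image.1 ha
      obtain ⟨c, hc, hcb⟩ := Finset.mem_image.1 (hq hb)
      rw [← hcb]; simpa using hc
    have := hp.2 _ hq' (hqne.image _)
    rw [Finset.image_image, Finset.image_image] at this
    exact this.symm

theorem back {L : Finset Z → V} {M : Finset W → V} (hL : EP L) {p : Finset (Z × W)}
    (hp : PE L M p) (w : W) : ∃ p', p ⊆ p' ∧ PE L M p' ∧ ∃ z, (z, w) ∈ p' := by
  classical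
  obtain ⟨p', h1, h2, z, hz⟩ := forth hL hp.swap w
  refine ⟨p'.image Prod.swap, ?_, h2.swap, z, ?_⟩
  · intro a ha
    apply Finset.mem_image.2
    exact ⟨a.swap, h1 (Finset.mem_image_of_mem _ ha), by simp⟩
  · exact Finset.mem_image.2 ⟨(w, z), hz, rfl⟩

/-- chain of extensions -/
theorem chain {α : Type} (Q : Finset α → Prop) (D : ℕ → Finset α → Prop)
    (hD : ∀ n p, Q p → ∃ p', p ⊆ p' ∧ Q p' ∧ D n p') (p : Finset α) (hp : Q p) :
    ∃ P : ℕ → Finset α, p ⊆ P 0 ∧ Monotone P ∧ (∀ n, Q (P n)) ∧ ∀ n, D n (P n) := by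
  classical
  choose! F hF1 hF2 hF3 using hD
  let P : ℕ → Finset α := fun n => Nat.rec (F 0 p) (fun k q => F (k + 1) q) n
  have hP0 : P 0 = F 0 p := rfl
  have hPs : ∀ n, P (n + 1) = F (n + 1) (P n) := fun n => rfl
  have hQ : ∀ n, Q (P n) := by
    intro n
    induction n with
    | zero => rw [hP0]; exact hF2 0 p hp
    | succ k ih => rw [hPs]; exact hF2 _ _ ih
  refine ⟨P, ?_, ?_, hQ, ?_⟩
  · rw [hP0]; exact hF1 0 p hp
  · apply monotone_nat_of_le_succ
    intro n
    rw [hPs]; exact hF1 _ _ (hQ n)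
  · intro n
    cases n with
    | zero => rw [hP0]; exact hF3 0 p hp
    | succ k => rw [hPs]; exact hF3 _ _ (hQ k)

theorem exists_embedding [Countable Z] {L : Finset Z → V} {M : Finset W → V} (hM : EP M)
    {p : Finset (Z × W)} (hp : PE L M p) :
    ∃ j : Z → W, Function.Injective j ∧ (∀ X : Finset Z, X.Nonempty → M (X.image j) = L X) ∧
      ∀ a ∈ p, j a.1 = a.2 := by
  classical
  rcases isEmpty_or_nonempty Z with hZ | hZ
  · refine ⟨fun z => (hZ.false z).elim, fun z => (hZ.false z).elim, ?_, fun a => (hZ.false a.1).elim⟩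
    rintro X ⟨x, _⟩
    exact (hZ.false x).elim
  obtain ⟨e, he⟩ := exists_surjective_nat Z
  obtain ⟨P, hP0, hPm, hPQ, hPD⟩ := chain (PE L M) (fun n q => ∃ w, (e n, w) ∈ q)
    (fun n q hq => forth hM hq (e n)) p hp
  have hall : ∀ z, ∃ w, ∃ n, (z, w) ∈ P n := by
    intro z
    obtain ⟨n, rfl⟩ := he z
    obtain ⟨w, hw⟩ := hPD n
    exact ⟨w, n, hw⟩
  choose j nn hj using hall
  have key : ∀ X : Finset Z, ∃ n, ∀ z ∈ X, (z, j z) ∈ P n := by
    intro X
    refine ⟨X.sup nn, fun z hz => ?_⟩
    exact hPm (Finset.le_sup hz) (hj z)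
  refine ⟨j, ?_, ?_, ?_⟩
  · intro z z' h
    obtain ⟨n, hn⟩ := key {z, z'}
    exact ((hPQ n).1 _ (hn z (by simp)) _ (hn z' (by simp))).2 h
  · intro X hX
    obtain ⟨n, hn⟩ := key X
    have hq : X.image (fun z => (z, j z)) ⊆ P n := by
      intro a ha
      obtain ⟨z, hz, rfl⟩ := Finset.mem_image.1 ha
      exact hn z hz
    have := (hPQ n).2 _ hq (hX.image _)
    rw [Finset.image_image, Finset.image_image] at this
    have h1 : X.image (Prod.fst ∘ fun z => (z, j z)) = X := by
      have : (Prod.fst ∘ fun z => (z, j z)) = id := rfl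
      rw [this, Finset.image_id]
    rw [h1] at this
    exact this.symm
  · intro a ha
    have h1 : a ∈ P (nn a.1) := hPm (Nat.zero_le _) (hP0 ha)
    exact ((hPQ (nn a.1)).1 _ (hj a.1) _ h1).1 rfl

theorem exists_equiv [Countable Z] [Countable W] {L : Finset Z → V} {M : Finset W → V}
    (hL : EP L) (hM : EP M) {p : Finset (Z × W)} (hp : PE L M p) :
    ∃ j : Z ≃ W, (∀ X : Finset Z, X.Nonempty → M (X.image j) = L X) ∧
      ∀ a ∈ p, j a.1 = a.2 := by
  classical
  have : Nonempty W := by
    obtain ⟨y, _⟩ := hM ∅ (fun _ => 0); exact ⟨y⟩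
  have : Nonempty Z := by
    obtain ⟨y, _⟩ := hL ∅ (fun _ => 0); exact ⟨y⟩
  obtain ⟨e, he⟩ := exists_surjective_nat Z
  obtain ⟨e', he'⟩ := exists_surjective_nat W
  obtain ⟨P, hP0, hPm, hPQ, hPD⟩ := chain (PE L M)
    (fun n q => (∃ w, (e n, w) ∈ q) ∧ ∃ z, (z, e' n) ∈ q)
    (fun n q hq => by
      obtain ⟨q1, h1, h2, w, hw⟩ := forth hM hq (e n)
      obtain ⟨q2, h3, h4, z, hz⟩ := back hL h2 (e' n)
      exact ⟨q2, h1.trans h3, h4, ⟨w, h3 hw⟩, z, hz⟩) p hp
  have hall : ∀ z, ∃ w, ∃ n, (z, w) ∈ P n := by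
    intro z
    obtain ⟨n, rfl⟩ := he z
    obtain ⟨⟨w, hw⟩, _⟩ := hPD n
    exact ⟨w, n, hw⟩
  choose j nn hj using hall
  have key : ∀ X : Finset Z, ∃ n, ∀ z ∈ X, (z, j z) ∈ P n := by
    intro X
    refine ⟨X.sup nn, fun z hz => ?_⟩
    exact hPm (Finset.le_sup hz) (hj z)
  have hinj : Function.Injective j := by
    intro z z' h
    obtain ⟨n, hn⟩ := key {z, z'}
    exact ((hPQ n).1 _ (hn z (by simp)) _ (hn z' (by simp))).2 h
  have hsurj : Function.Surjective j := by
    intro w
    obtain ⟨n, rfl⟩ := he' w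
    obtain ⟨_, z, hz⟩ := hPD n
    refine ⟨z, ?_⟩
    have h1 : (z, j z) ∈ P (max n (nn z)) := hPm (le_max_right _ _) (hj z)
    have h2 : (z, e' n) ∈ P (max n (nn z)) := hPm (le_max_left _ _) hz
    exact ((hPQ _).1 _ h1 _ h2).1 rfl
  refine ⟨Equiv.ofBijective j ⟨hinj, hsurj⟩, ?_, ?_⟩
  · intro X hX
    obtain ⟨n, hn⟩ := key X
    have hq : X.image (fun z => (z, j z)) ⊆ P n := by
      intro a ha
      obtain ⟨z, hz, rfl⟩ := Finset.mem_image.1 ha
      exact hn z hz
    have := (hPQ n).2 _ hq (hX.image _)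
    rw [Finset.image_image, Finset.image_image] at this
    have h1 : X.image (Prod.fst ∘ fun z => (z, j z)) = X := by
      have : (Prod.fst ∘ fun z => (z, j z)) = id := rfl
      rw [this, Finset.image_id]
    rw [h1] at this
    exact this.symm
  · intro a ha
    have h1 : a ∈ P (nn a.1) := hPm (Nat.zero_le _) (hP0 ha)
    exact ((hPQ (nn a.1)).1 _ (hj a.1) _ h1).1 rfl

end BF

end Pool.Agent.H743R3
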