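import Mathlib
import Pool.Agent.H743R3.Generic

set_option autoImplicit false

namespace Pool.Agent.H743R3

/-- data of a type -/
abbrev K (n : ℕ) := (Fin n → ZMod 2) × (ℕ → ZMod 2) × (ℕ → (Fin n → ZMod 2) → Fin n)

def pr {n : ℕ} (X : Finset (Fin n → ℕ)) (j : Fin n) : Finset ℕ := X.image (fun x => x j)

def Tr {n : ℕ} (X : Finset (Fin n → ℕ)) : Prop := ∀ j, (pr X j).card = X.card

def fm {n : ℕ} (κ : K n) (k : ℕ) (v : Fin n → V) : V :=
  (∑ j, κ.1 j * (v j).1 + κ.2.1 k, (v (κ.2.2 k (fun j => (v j).1))).2)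

def good {n : ℕ} (κ : K n) : Prop :=
  ∑ j, κ.1 j = 1 ∧ ∀ k l, κ.2.1 (k ^^^ l) = κ.2.1 k + κ.2.1 l

def Has {n : ℕ} (f : (Fin n → ℕ) → ℕ) (κ : K n) : Prop :=
  ∀ X : Finset (Fin n → ℕ), X.Nonempty → Tr X →
    (X.image f).card = X.card ∧ lam (X.image f) = fm κ X.card (fun j => lam (pr X j))

def C (n : ℕ) : Set ((Fin n → ℕ) → ℕ) := {f | ∃ κ : K n, good κ ∧ Has f κ}

/-- data of the projection -/
def pk {n : ℕ} (i : Fin n) : K n := (fun j => if j = i then 1 else 0, fun _ => 0, fun _ _ => i)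

theorem fm_pk {n : ℕ} (i : Fin n) (k : ℕ) (v : Fin n → V) : fm (pk i) k v = v i := by
  simp [fm, pk]

theorem good_pk {n : ℕ} (i : Fin n) : good (pk i) := by
  simp [good, pk]

theorem has_proj {n : ℕ} (i : Fin n) : Has (fun x : Fin n → ℕ => x i) (pk i) := by
  intro X hX hT
  rw [fm_pk]
  exact ⟨hT i, rfl⟩

theorem proj_mem {n : ℕ} (i : Fin n) : (fun x : Fin n → ℕ => x i) ∈ C n :=
  ⟨pk i, good_pk i, has_proj i⟩

/-- composition of data -/
def ck {n m : ℕ} (κ : K n) (η : Fin n → K m) : K m :=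
  (fun j => ∑ i, κ.1 i * (η i).1 j, fun k => ∑ i, κ.1 i * (η i).2.1 k + κ.2.1 k,
    fun k b => (η (κ.2.2 k (fun i => ∑ j, (η i).1 j * b j + (η i).2.1 k))).2.2 k b)

theorem fm_ck {n m : ℕ} (κ : K n) (η : Fin n → K m) (k : ℕ) (v : Fin m → V) :
    fm (ck κ η) k v = fm κ k (fun i => fm (η i) k v) := by
  unfold fm ck
  simp only [Prod.mk.injEq]
  refine ⟨?_, trivial⟩
  have h1 : ∑ j, (∑ i, κ.1 i * (η i).1 j) * (v j).1
      = ∑ i, κ.1 i * ∑ j, (η i).1 j * (v j).1 := by
    simp_rw [Finset.sum_mul, Finset.mul_sum]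
    rw [Finset.sum_comm]
    simp_rw [mul_assoc]
  rw [h1]
  simp_rw [mul_add]
  rw [Finset.sum_add_distrib]
  ring

theorem good_ck {n m : ℕ} {κ : K n} {η : Fin n → K m} (hκ : good κ) (hη : ∀ i, good (η i)) :
    good (ck κ η) := by
  unfold ck
  refine ⟨?_, ?_⟩
  · simp only
    rw [Finset.sum_comm]
    simp_rw [← Finset.mul_sum]
    rw [← hκ.1]
    apply Finset.sum_congr rfl
    intro i _
    rw [(hη i).1, mul_one]
  · intro k l
    simp only
    rw [hκ.2]
    have : ∀ i, κ.1 i * (η i).2.1 (k ^^^ l) = κ.1 i * (η i).2.1 k + κ.1 i * (η i).2.1 l := by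
      intro i; rw [(hη i).2, mul_add]
    simp_rw [this]
    rw [Finset.sum_add_distrib]
    ring

theorem good.pos {n : ℕ} {κ : K n} (h : good κ) : 0 < n := by
  rcases Nat.eq_zero_or_pos n with h0 | h0
  · subst h0
    have := h.1
    simp at this
  · exact h0

theorem tr_comp {n m : ℕ} (hn : 0 < n) {g : Fin n → (Fin m → ℕ) → ℕ} {X : Finset (Fin m → ℕ)}
    (hg : ∀ i, (X.image (g i)).card = X.card) :
    (∀ i, pr (X.image (fun x i => g i x)) i = X.image (g i)) ∧
    (X.image (fun x i => g i x)).card = X.card ∧ Tr (X.image (fun x i => g i x)) := by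
  have h1 : ∀ i, pr (X.image (fun x i => g i x)) i = X.image (g i) := by
    intro i
    unfold pr
    rw [Finset.image_image]
    rfl
  have h2 : (X.image (fun x i => g i x)).card = X.card := by
    apply le_antisymm Finset.card_image_le
    rw [← hg ⟨0, hn⟩, ← h1]
    exact Finset.card_image_le
  refine ⟨h1, h2, ?_⟩
  intro i
  rw [h1, h2, hg]

theorem has_comp {n m : ℕ} {f : (Fin n → ℕ) → ℕ} {κ : K n} {g : Fin n → (Fin m → ℕ) → ℕ}
    {η : Fin n → K m} (hn : 0 < n) (hf : Has f κ) (hg : ∀ i, Has (g i) (η i)) :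
    Has (fun x => f (fun i => g i x)) (ck κ η) := by
  intro X hX hT
  have hgc : ∀ i, (X.image (g i)).card = X.card := fun i => (hg i X hX hT).1
  obtain ⟨h1, h2, h3⟩ := tr_comp hn hgc
  have h4 : X.image (fun x => f (fun i => g i x)) = (X.image (fun x i => g i x)).image f := by
    rw [Finset.image_image]; rfl
  obtain ⟨h5, h6⟩ := hf _ (hX.image _) h3
  rw [h4]
  refine ⟨h5.trans h2, ?_⟩
  rw [h6, fm_ck, h2]
  congr 1
  funext i
  rw [h1, (hg i X hX hT).2]

theorem comp_mem {n m : ℕ} {f : (Fin n → ℕ) → ℕ} {g : Fin n → (Fin m → ℕ) → ℕ}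
    (hf : f ∈ C n) (hg : ∀ i, g i ∈ C m) : (fun x : Fin m → ℕ => f (fun i => g i x)) ∈ C m := by
  obtain ⟨κ, h1, h2⟩ := hf
  choose η h3 h4 using hg
  exact ⟨ck κ η, good_ck h1 h3, has_comp h1.pos h2 h4⟩

/-- existence of injective functions with prescribed colouring -/
theorem exists_fun {n : ℕ} (L : Finset (Fin n → ℕ) → V) : ∃ f : (Fin n → ℕ) → ℕ,
    Function.Injective f ∧ ∀ X : Finset (Fin n → ℕ), X.Nonempty → lam (X.image f) = L X := by
  classical
  obtain ⟨j, h1, h2, _⟩ := exists_embedding (Z := Fin n → ℕ) (W := ℕ) (L := L) (M := lam) lam_EP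
    (p := ∅) ⟨by simp, by
      intro q hq hne
      rw [Finset.subset_empty.1 hq] at hne
      simp at hne⟩
  exact ⟨j, h1, h2⟩

theorem has_of_formula {n : ℕ} {f : (Fin n → ℕ) → ℕ} {κ : K n} (hinj : Function.Injective f)
    (h : ∀ X : Finset (Fin n → ℕ), X.Nonempty → Tr X →
      lam (X.image f) = fm κ X.card (fun j => lam (pr X j))) : Has f κ :=
  fun X hX hT => ⟨Finset.card_image_of_injective _ hinj, h X hX hT⟩

theorem exists_has {n : ℕ} (κ : K n) : ∃ f : (Fin n → ℕ) → ℕ, Function.Injective f ∧ Has f κ := by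
  obtain ⟨f, h1, h2⟩ := exists_fun (n := n) (fun X => fm κ X.card (fun j => lam (pr X j)))
  exact ⟨f, h1, has_of_formula h1 (fun X hX _ => h2 X hX)⟩

/-- unary embeddings -/
def Emb (e : ℕ → ℕ) : Prop := Function.Injective e ∧ ∀ S : Finset ℕ, S.Nonempty → lam (S.image e) = lam S

theorem Emb.mem {e : ℕ → ℕ} (he : Emb e) : (fun y : Fin 1 → ℕ => e (y 0)) ∈ C 1 := by
  refine ⟨pk 0, good_pk 0, ?_⟩
  intro X hX hT
  have h1 : X.image (fun y : Fin 1 → ℕ => e (y 0)) = (pr X 0).image e := by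
    unfold pr; rw [Finset.image_image]; rfl
  rw [h1, fm_pk]
  refine ⟨?_, he.2 _ (hX.image _)⟩
  rw [Finset.card_image_of_injective _ he.1]
  exact hT 0

/-- joint embedding over a common part -/
theorem exists_joint {n : ℕ} {f f' : (Fin n → ℕ) → ℕ} (hf : Function.Injective f)
    (hf' : Function.Injective f')
    (h : ∀ X : Finset (Fin n → ℕ), X.Nonempty → lam (X.image f) = lam (X.image f')) :
    ∃ e e' : ℕ → ℕ, Emb e ∧ Emb e' ∧ ∀ x, e (f x) = e' (f' x) := by
  classical
  let i1 : ℕ → ℕ ⊕ ℕ := Sum.inl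
  let i2 : ℕ → ℕ ⊕ ℕ := fun y => if h : ∃ x, f' x = y then Sum.inl (f h.choose) else Sum.inr y
  have hi1 : Function.Injective i1 := Sum.inl_injective
  have hi2f : ∀ x, i2 (f' x) = Sum.inl (f x) := by
    intro x
    have hx : ∃ x', f' x' = f' x := ⟨x, rfl⟩
    have : hx.choose = x := hf' hx.choose_spec
    simp only [i2]
    rw [dif_pos hx, this]
  have hi2r : ∀ y, (¬ ∃ x, f' x = y) → i2 y = Sum.inr y := by
    intro y hy
    simp only [i2]
    rw [dif_neg hy]
  have hi2 : Function.Injective i2 := by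
    intro y y' hyy
    by_cases hy : ∃ x, f' x = y
    · obtain ⟨x, rfl⟩ := hy
      by_cases hy' : ∃ x, f' x = y'
      · obtain ⟨x', rfl⟩ := hy'
        rw [hi2f, hi2f] at hyy
        rw [hf (Sum.inl_injective hyy)]
      · rw [hi2f, hi2r _ hy'] at hyy
        cases hyy
    · by_cases hy' : ∃ x, f' x = y'
      · obtain ⟨x', rfl⟩ := hy'
        rw [hi2f, hi2r _ hy] at hyy
        cases hyy
      · rw [hi2r _ hy, hi2r _ hy'] at hyy
        exact Sum.inr_injective hyy
  let L : Finset (ℕ ⊕ ℕ) → V := fun S =>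
    if h : ∃ T : Finset ℕ, T.image i1 = S then lam h.choose
    else if h : ∃ T : Finset ℕ, T.image i2 = S then lam h.choose else 0
  have hL1 : ∀ T : Finset ℕ, L (T.image i1) = lam T := by
    intro T
    have hT : ∃ T' : Finset ℕ, T'.image i1 = T.image i1 := ⟨T, rfl⟩
    have : hT.choose = T := Finset.image_injective hi1 hT.choose_spec
    simp only [L]
    rw [dif_pos hT, this]
  have hL2 : ∀ T : Finset ℕ, T.Nonempty → L (T.image i2) = lam T := by
    intro T hTne
    by_cases hT : ∃ T' : Finset ℕ, T'.image i1 = T.image i2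
    · obtain ⟨T', hT'⟩ := hT
      rw [← hT', hL1]
      have hall : ∀ y ∈ T, ∃ x, f' x = y := by
        intro y hy
        by_contra hcon
        have h1 : i2 y ∈ T'.image i1 := by
          rw [hT']; exact Finset.mem_image_of_mem _ hy
        rw [hi2r y hcon] at h1
        obtain ⟨z, _, hz⟩ := Finset.mem_image.1 h1
        cases hz
      obtain ⟨X, hX⟩ : ∃ X : Finset (Fin n → ℕ), X.image f' = T := by
        refine ⟨T.preimage f' hf'.injOn, ?_⟩
        rw [Finset.image_preimage]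
        apply Finset.filter_true_of_mem
        intro y hy
        obtain ⟨x, hx⟩ := hall y hy
        exact ⟨x, hx⟩
      have hXne : X.Nonempty := by
        rw [← hX] at hTne
        exact Finset.image_nonempty.1 hTne
      have h2 : T' = X.image f := by
        apply Finset.image_injective hi1
        rw [hT', ← hX, Finset.image_image, Finset.image_image]
        apply Finset.image_congr
        intro x _
        exact hi2f x
      rw [h2, h X hXne, hX]
    · have hT2 : ∃ T' : Finset ℕ, T'.image i2 = T.image i2 := ⟨T, rfl⟩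
      have : hT2.choose = T := Finset.image_injective hi2 hT2.choose_spec
      simp only [L]
      rw [dif_neg hT, dif_pos hT2, this]
  obtain ⟨j, hj1, hj2, _⟩ := exists_embedding (Z := ℕ ⊕ ℕ) (W := ℕ) (L := L) (M := lam) lam_EP
    (p := ∅) ⟨by simp, by
      intro q hq hne
      rw [Finset.subset_empty.1 hq] at hne
      simp at hne⟩
  refine ⟨fun y => j (i1 y), fun y => j (i2 y), ⟨hj1.comp hi1, ?_⟩, ⟨hj1.comp hi2, ?_⟩, ?_⟩
  · intro S hS
    have : S.image (fun y => j (i1 y)) = (S.image i1).image j := by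
      rw [Finset.image_image]; rfl
    rw [this, hj2 _ (hS.image _), hL1]
  · intro S hS
    have : S.image (fun y => j (i2 y)) = (S.image i2).image j := by
      rw [Finset.image_image]; rfl
    rw [this, hj2 _ (hS.image _), hL2 _ hS]
  · intro x
    simp only
    rw [hi2f]

end Pool.Agent.H743R3
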