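import Mathlib
import Pool.Agent.H743R3.CloneDef

set_option autoImplicit false

namespace Pool.Agent.H743R3

open Filter Topology

/-- the graph condition for a fixed finite set is closed -/
theorem isClosed_C (n : ℕ) : IsClosed (C n) := by
  classical
  have hC : C n = Prod.fst '' {x : ((Fin n → ℕ) → ℕ) × K n | good x.2 ∧ Has x.1 x.2} := by
    ext f
    constructor
    · rintro ⟨κ, h1, h2⟩
      exact ⟨(f, κ), ⟨h1, h2⟩, rfl⟩
    · rintro ⟨⟨f', κ⟩, ⟨h1, h2⟩, rfl⟩
      exact ⟨κ, h1, h2⟩
  rw [hC]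
  apply isClosedMap_fst_of_compactSpace
  have hg : IsClosed {x : ((Fin n → ℕ) → ℕ) × K n | good x.2} := by
    have h1 : {x : ((Fin n → ℕ) → ℕ) × K n | good x.2} =
        (fun x => x.2.1) ⁻¹' {c | ∑ j, c j = 1} ∩
        ⋂ k : ℕ, ⋂ l : ℕ, (fun x : ((Fin n → ℕ) → ℕ) × K n =>
          (x.2.2.1 (k ^^^ l), x.2.2.1 k, x.2.2.1 l)) ⁻¹' {t | t.1 = t.2.1 + t.2.2} := by
      ext x
      simp [good]
    rw [h1]
    refine IsClosed.inter ?_ ?_
    · exact (isClosed_discrete _).preimage (by fun_prop)
    · refine isClosed_iInter fun k => isClosed_iInter fun l => ?_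
      exact (isClosed_discrete _).preimage (by fun_prop)
  have hh : IsClosed {x : ((Fin n → ℕ) → ℕ) × K n | Has x.1 x.2} := by
    have h1 : {x : ((Fin n → ℕ) → ℕ) × K n | Has x.1 x.2} =
        ⋂ X : Finset (Fin n → ℕ), (fun x : ((Fin n → ℕ) → ℕ) × K n =>
          ((fun y : X => x.1 y), x.2.1, x.2.2.1 X.card, x.2.2.2 X.card)) ⁻¹'
          {t | X.Nonempty → Tr X → (Finset.univ.image t.1).card = X.card ∧
            lam (Finset.univ.image t.1) = (∑ j, t.2.1 j * (lam (pr X j)).1 + t.2.2.1,
              (lam (pr X (t.2.2.2 (fun j => (lam (pr X j)).1)))).2)} := by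
      ext x
      simp only [Has, Set.mem_ofPred_eq, Set.mem_iInter, Set.mem_preimage]
      have himg : ∀ X : Finset (Fin n → ℕ),
          (Finset.univ.image (fun y : X => x.1 y)) = X.image x.1 := by
        intro X
        ext z
        simp
      constructor
      · intro h X hX hT
        rw [himg]
        exact h X hX hT
      · intro h X hX hT
        have := h X hX hT
        rw [himg] at this
        exact this
    rw [h1]
    refine isClosed_iInter fun X => ?_
    exact (isClosed_discrete _).preimage (by fun_prop)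
  exact hg.inter hh

/-- isomorphism type of a tuple -/
noncomputable def ty {k : ℕ} (x : Fin k → ℕ) : (Fin k → Fin k → Bool) × (Finset (Fin k) → V) :=
  (fun i j => decide (x i = x j), fun I => lam (I.image x))

theorem homog {k : ℕ} (s x : Fin k → ℕ) (h : ty s = ty x) : ∃ σ : ℕ ≃ ℕ,
    (∀ X : Finset ℕ, X.Nonempty → lam (X.image σ) = lam X) ∧ ∀ i, σ (s i) = x i := by
  classical
  have h1 : ∀ i j, s i = s j ↔ x i = x j := by
    intro i j
    have := congrFun (congrFun (congrArg Prod.fst h) i) j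
    simpa [ty] using this
  have h2 : ∀ I : Finset (Fin k), lam (I.image s) = lam (I.image x) := by
    intro I
    exact congrFun (congrArg Prod.snd h) I
  obtain ⟨σ, h3, h4⟩ := exists_equiv (L := lam) (M := lam) lam_EP lam_EP
    (p := Finset.univ.image (fun i : Fin k => (s i, x i))) (by
      constructor
      · intro a ha b hb
        obtain ⟨i, _, rfl⟩ := Finset.mem_image.1 ha
        obtain ⟨j, _, rfl⟩ := Finset.mem_image.1 hb
        exact h1 i j
      · intro q hq _
        have hqI : q = (Finset.univ.filter (fun i : Fin k => (s i, x i) ∈ q)).image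
            (fun i : Fin k => (s i, x i)) := by
          ext a
          simp only [Finset.mem_image, Finset.mem_filter, Finset.mem_univ, true_and]
          constructor
          · intro ha
            obtain ⟨i, _, hi⟩ := Finset.mem_image.1 (hq ha)
            exact ⟨i, by rw [hi]; exact ha, hi⟩
          · rintro ⟨i, hi, rfl⟩
            exact hi
        rw [hqI, Finset.image_image, Finset.image_image]
        exact h2 _)
  exact ⟨σ, h3, fun i => h4 (s i, x i) (Finset.mem_image_of_mem _ (Finset.mem_univ i))⟩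

theorem oligo (k : ℕ) : ∃ S : Finset (Fin k → ℕ), ∀ x : Fin k → ℕ, ∃ s ∈ S, ∃ σ τ : ℕ → ℕ,
    (fun y : Fin 1 → ℕ => σ (y 0)) ∈ C 1 ∧ (fun y : Fin 1 → ℕ => τ (y 0)) ∈ C 1 ∧
    Function.LeftInverse τ σ ∧ Function.RightInverse τ σ ∧ σ ∘ s = x := by
  classical
  have hrep : ∀ t : (Fin k → Fin k → Bool) × (Finset (Fin k) → V), ∃ s : Fin k → ℕ,
      (∃ x, ty x = t) → ty s = t := by
    intro t
    by_cases h : ∃ x, ty x = t
    · obtain ⟨x, hx⟩ := h
      exact ⟨x, fun _ => hx⟩
    · exact ⟨fun _ => 0, fun h' => absurd h' h⟩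
  choose rep hrep using hrep
  refine ⟨Finset.univ.image rep, fun x => ⟨rep (ty x), Finset.mem_image_of_mem _ (Finset.mem_univ _), ?_⟩⟩
  obtain ⟨σ, h1, h2⟩ := homog (rep (ty x)) x (hrep _ ⟨x, rfl⟩)
  have e1 : Emb σ := ⟨σ.injective, h1⟩
  have e2 : Emb σ.symm := by
    refine ⟨σ.symm.injective, fun X hX => ?_⟩
    have := h1 (X.image σ.symm) (hX.image _)
    rw [Finset.image_image] at this
    rw [← this]
    congr 1
    ext z
    simp
  exact ⟨σ, σ.symm, e1.mem, e2.mem, σ.left_inv, σ.right_inv, funext h2⟩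

end Pool.Agent.H743R3
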