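import Mathlib
import Pool.Agent.H743R3.CloneTop

set_option autoImplicit false

namespace Pool.Agent.H743R3

open Filter Topology

/-- a common zero of finitely many xor homomorphisms -/
theorem common_zero (T : Finset (ℕ → ZMod 2)) (hT : ∀ g ∈ T, ∀ k l, g (k ^^^ l) = g k + g l) :
    ∃ k : ℕ, 1 ≤ k ∧ ∀ g ∈ T, g k = 0 := by
  classical
  obtain ⟨k, l, hkl, h⟩ := Finite.exists_ne_map_eq_of_infinite
    (fun k : ℕ => (fun g : T => g.1 k))
  refine ⟨k ^^^ l, ?_, ?_⟩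
  · have : k ^^^ l ≠ 0 := by
      intro h0
      exact hkl (Nat.xor_eq_zero_iff.1 h0)
    omega
  · intro g hg
    rw [hT g hg]
    have := congrFun h ⟨g, hg⟩
    simp only at this
    rw [this]
    exact CharTwo.add_self_eq_zero _

theorem exists_U : ∃ U : Ultrafilter ℕ, ∀ g : ℕ → ZMod 2, (∀ k l, g (k ^^^ l) = g k + g l) →
    ∀ᶠ k in (U : Filter ℕ), 1 ≤ k ∧ g k = 0 := by
  classical
  let Ss : Set (Set ℕ) := {s | ∃ g : ℕ → ZMod 2, (∀ k l, g (k ^^^ l) = g k + g l) ∧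
    s = {k | 1 ≤ k ∧ g k = 0}}
  obtain ⟨U, hU⟩ := Ultrafilter.exists_ultrafilter_of_finite_inter_nonempty Ss (by
    intro T hT
    have hch : ∀ s : T, ∃ g : ℕ → ZMod 2, (∀ k l, g (k ^^^ l) = g k + g l) ∧
        s.1 = {k | 1 ≤ k ∧ g k = 0} := fun s => hT s.2
    choose g hg1 hg2 using hch
    obtain ⟨k, hk1, hk2⟩ := common_zero (Finset.univ.image g) (by
      intro g' hg'
      obtain ⟨s, _, rfl⟩ := Finset.mem_image.1 hg'
      exact hg1 s)
    refine ⟨k, ?_⟩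
    intro s hs
    have := hg2 ⟨s, hs⟩
    simp only at this
    rw [this]
    exact ⟨hk1, hk2 _ (Finset.mem_image_of_mem _ (Finset.mem_univ _))⟩)
  exact ⟨U, fun g hg => hU ⟨g, hg, rfl⟩⟩

noncomputable def U : Ultrafilter ℕ := exists_U.choose

theorem U_spec (g : ℕ → ZMod 2) (hg : ∀ k l, g (k ^^^ l) = g k + g l) :
    ∀ᶠ k in (U : Filter ℕ), 1 ≤ k ∧ g k = 0 := exists_U.choose_spec g hg

theorem U_pos : ∀ᶠ k in (U : Filter ℕ), 1 ≤ k :=
  (U_spec (fun _ => 0) (by simp)).mono fun _ h => h.1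

/-- realisation of arbitrary values on transversal sets -/
theorem exists_tr {n : ℕ} (hn : 0 < n) (k : ℕ) (v : Fin n → V) :
    ∃ X : Finset (Fin n → ℕ), X.card = k + 1 ∧ Tr X ∧ ∀ j, lam (pr X j) = v j := by
  classical
  have h : ∀ j, ∃ y, y ∉ Finset.range k ∧ lam (insert y (Finset.range k)) = v j := by
    intro j
    obtain ⟨y, h1, h2⟩ := lam_EP (Finset.range k) (fun _ => v j)
    exact ⟨y, h1, h2 _ (Finset.Subset.refl _)⟩
  choose y hy1 hy2 using h
  have hinj : Function.Injective (fun (i : ℕ) (_ : Fin n) => i) := by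
    intro a b hab
    exact congrFun hab ⟨0, hn⟩
  have hpr : ∀ j, pr (insert y ((Finset.range k).image (fun (i : ℕ) (_ : Fin n) => i))) j
      = insert (y j) (Finset.range k) := by
    intro j
    unfold pr
    rw [Finset.image_insert, Finset.image_image]
    congr 1
    exact Finset.image_id
  have hcard : (insert y ((Finset.range k).image (fun (i : ℕ) (_ : Fin n) => i))).card = k + 1 := by
    rw [Finset.card_insert_of_notMem, Finset.card_image_of_injective _ hinj, Finset.card_range]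
    intro hmem
    obtain ⟨i, hi, hiy⟩ := Finset.mem_image.1 hmem
    apply hy1 ⟨0, hn⟩
    rw [← hiy]
    exact hi
  refine ⟨_, hcard, ?_, ?_⟩
  · intro j
    rw [hpr, hcard, Finset.card_insert_of_notMem (hy1 j), Finset.card_range]
  · intro j
    rw [hpr]
    exact hy2 j

theorem fm_unique {n : ℕ} {f : (Fin n → ℕ) → ℕ} {κ κ' : K n} (hg : good κ) (h : Has f κ)
    (h' : Has f κ') {k : ℕ} (hk : 1 ≤ k) (v : Fin n → V) : fm κ k v = fm κ' k v := by
  obtain ⟨X, h1, h2, h3⟩ := exists_tr hg.pos (k - 1) v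
  have hk' : k - 1 + 1 = k := by omega
  rw [hk'] at h1
  have hne : X.Nonempty := by
    rw [← Finset.card_pos, h1]; omega
  have e1 := (h X hne h2).2
  have e2 := (h' X hne h2).2
  rw [e1, h1] at e2
  have : (fun j => lam (pr X j)) = v := funext h3
  rw [this] at e2
  exact e2

theorem q_unique {n : ℕ} {f : (Fin n → ℕ) → ℕ} {κ κ' : K n} (hg : good κ) (h : Has f κ)
    (h' : Has f κ') {k : ℕ} (hk : 1 ≤ k) : κ.2.2 k (fun _ => 0) = κ'.2.2 k (fun _ => 0) := by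
  classical
  by_contra hne
  have := fm_unique hg h h' hk (fun j => ((0 : ZMod 2),
    if j = κ.2.2 k (fun _ => 0) then (1 : ZMod 2) else 0))
  have h2 := congrArg Prod.snd this
  simp only [fm, if_true] at h2
  rw [if_neg (fun hh => hne hh.symm)] at h2
  exact one_ne_zero h2

noncomputable def xi (n : ℕ) (f : (Fin n → ℕ) → ℕ) : ℕ := by
  classical
  exact if h : ∃ i : Fin n, ∃ κ : K n, good κ ∧ Has f κ ∧
    ∀ᶠ k in (U : Filter ℕ), κ.2.2 k (fun _ => 0) = i then (h.choose : ℕ) else 0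

theorem xi_eq {n : ℕ} {f : (Fin n → ℕ) → ℕ} {κ : K n} (hg : good κ) (h : Has f κ) {i : Fin n}
    (hi : ∀ᶠ k in (U : Filter ℕ), κ.2.2 k (fun _ => 0) = i) : xi n f = i := by
  classical
  have hex : ∃ i : Fin n, ∃ κ : K n, good κ ∧ Has f κ ∧
    ∀ᶠ k in (U : Filter ℕ), κ.2.2 k (fun _ => 0) = i := ⟨i, κ, hg, h, hi⟩
  unfold xi
  rw [dif_pos hex]
  obtain ⟨κ', hg', h', hi'⟩ := hex.choose_spec
  obtain ⟨k, ⟨hk1, hk2⟩, hk3⟩ := ((hi.and hi').and U_pos).exists
  rw [← hk1, ← hk2, q_unique hg h h' hk3]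

theorem exists_lim {n : ℕ} (q : ℕ → Fin n) : ∃ i, ∀ᶠ k in (U : Filter ℕ), q k = i := by
  obtain ⟨i, hi⟩ := Ultrafilter.eq_pure_of_finite (U.map q)
  refine ⟨i, ?_⟩
  have h1 : ({i} : Set (Fin n)) ∈ U.map q := by
    rw [hi]; exact Ultrafilter.mem_pure.2 rfl
  exact Ultrafilter.mem_map.1 h1

theorem xi_lt (n : ℕ) (f : (Fin n → ℕ) → ℕ) (hf : f ∈ C n) : xi n f < n := by
  obtain ⟨κ, hg, h⟩ := hf
  obtain ⟨i, hi⟩ := exists_lim (fun k => κ.2.2 k (fun _ => 0))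
  rw [xi_eq hg h hi]
  exact i.2

theorem xi_proj (n : ℕ) (i : Fin n) : xi n (fun x : Fin n → ℕ => x i) = i :=
  xi_eq (good_pk i) (has_proj i) (Eventually.of_forall fun _ => rfl)

theorem xi_comp (n m : ℕ) (f : (Fin n → ℕ) → ℕ) (g : Fin n → (Fin m → ℕ) → ℕ)
    (hf : f ∈ C n) (hgm : ∀ i, g i ∈ C m) (i : Fin n) (hi : xi n f = (i : ℕ)) :
    xi m (fun x : Fin m → ℕ => f (fun j => g j x)) = xi m (g i) := by
  obtain ⟨κ, hg, h⟩ := hf
  choose η hη1 hη2 using hgm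
  obtain ⟨i0, hi0⟩ := exists_lim (fun k => κ.2.2 k (fun _ => 0))
  have hii : i0 = i := by
    apply Fin.ext
    rw [← hi, xi_eq hg h hi0]
  subst hii
  obtain ⟨i1, hi1⟩ := exists_lim (fun k => (η i0).2.2 k (fun _ => 0))
  rw [xi_eq (hη1 i0) (hη2 i0) hi1]
  apply xi_eq (good_ck hg hη1) (has_comp hg.pos h hη2)
  have hz : ∀ᶠ k in (U : Filter ℕ), ∀ j, (η j).2.1 k = 0 := by
    rw [eventually_all]
    intro j
    exact (U_spec _ (hη1 j).2).mono fun _ h => h.2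
  filter_upwards [hi0, hi1, hz] with k h1 h2 h3
  simp only [ck]
  have : (fun i => ∑ j, (η i).1 j * (0 : ZMod 2) + (η i).2.1 k) = fun _ => 0 := by
    funext i
    simp [h3]
  rw [this]
  rw [h1, h2]

end Pool.Agent.H743R3
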