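import Mathlib
import Pool.Agent.H743R3.CloneXi

set_option autoImplicit false

namespace Pool.Agent.H743R3

open Filter Topology

def IsHom (ξ : ∀ n : ℕ, ((Fin n → ℕ) → ℕ) → ℕ) : Prop :=
  (∀ (n : ℕ) (f : (Fin n → ℕ) → ℕ), f ∈ C n → ξ n f < n) ∧
  (∀ (n : ℕ) (i : Fin n), ξ n (fun x : Fin n → ℕ => x i) = (i : ℕ)) ∧
  (∀ (n m : ℕ) (f : (Fin n → ℕ) → ℕ) (g : Fin n → (Fin m → ℕ) → ℕ),
    f ∈ C n → (∀ i, g i ∈ C m) → ∀ i : Fin n, ξ n f = (i : ℕ) →
    ξ m (fun x : Fin m → ℕ => f (fun j => g j x)) = ξ m (g i))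

variable {ξ : ∀ n : ℕ, ((Fin n → ℕ) → ℕ) → ℕ}

theorem IsHom.unary (h : IsHom ξ) {u : (Fin 1 → ℕ) → ℕ} (hu : u ∈ C 1) {n : ℕ}
    {f : (Fin n → ℕ) → ℕ} (hf : f ∈ C n) : ξ n (fun x => u (fun _ => f x)) = ξ n f := by
  have h0 : ξ 1 u = ((0 : Fin 1) : ℕ) := by
    have := h.1 1 u hu
    simp only [Fin.val_zero]
    omega
  exact h.2.2 1 n u (fun _ => f) hu (fun _ => hf) 0 h0

theorem IsHom.same (h : IsHom ξ) {n : ℕ} {f f' : (Fin n → ℕ) → ℕ} (hf : f ∈ C n) (hf' : f' ∈ C n)
    (hi : Function.Injective f) (hi' : Function.Injective f')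
    (hl : ∀ X : Finset (Fin n → ℕ), X.Nonempty → lam (X.image f) = lam (X.image f')) :
    ξ n f = ξ n f' := by
  obtain ⟨e, e', he, he', hee⟩ := exists_joint hi hi' hl
  have h1 := h.unary he.mem hf
  have h2 := h.unary he'.mem hf'
  rw [← h1, ← h2]
  congr 1
  funext x
  exact hee x

/-- canonical injection of projection type -/
theorem exists_EE {n : ℕ} (p : Fin n) : ∃ f : (Fin n → ℕ) → ℕ, Function.Injective f ∧
    ∀ X : Finset (Fin n → ℕ), X.Nonempty →
      lam (X.image f) = if (pr X p).card = X.card then lam (pr X p) else 0 :=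
  exists_fun _

noncomputable def EE {n : ℕ} (p : Fin n) : (Fin n → ℕ) → ℕ := (exists_EE p).choose

theorem EE_inj {n : ℕ} (p : Fin n) : Function.Injective (EE p) := (exists_EE p).choose_spec.1

theorem EE_lam {n : ℕ} (p : Fin n) (X : Finset (Fin n → ℕ)) (hX : X.Nonempty) :
    lam (X.image (EE p)) = if (pr X p).card = X.card then lam (pr X p) else 0 :=
  (exists_EE p).choose_spec.2 X hX

theorem EE_has {n : ℕ} (p : Fin n) : Has (EE p) (pk p) := by
  apply has_of_formula (EE_inj p)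
  intro X hX hT
  rw [EE_lam p X hX, if_pos (hT p), fm_pk]

theorem EE_mem {n : ℕ} (p : Fin n) : EE p ∈ C n := ⟨_, good_pk p, EE_has p⟩

theorem stepA_aux {n : ℕ} (p j : Fin n) (hjp : j ≠ p) (H : Fin n → (Fin n → ℕ) → ℕ)
    (hH : ∀ i, i ≠ j → H i = fun x => x i)
    (hinj : ∀ x x' : Fin n → ℕ, H j x = H j x' → x p = x' p → x j = x' j) :
    Function.Injective (fun x : Fin n → ℕ => EE p (fun i => H i x)) ∧
    ∀ X : Finset (Fin n → ℕ), X.Nonempty → lam (X.image (fun x => EE p (fun i => H i x))) =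
      if (pr X p).card = X.card then lam (pr X p) else 0 := by
  classical
  have hHi : Function.Injective (fun (x : Fin n → ℕ) (i : Fin n) => H i x) := by
    intro x x' hxx
    have h1 : ∀ i, i ≠ j → x i = x' i := by
      intro i hi
      have := congrFun hxx i
      simp only [hH i hi] at this
      exact this
    funext i
    by_cases hi : i = j
    · subst hi
      exact hinj x x' (congrFun hxx i) (h1 p hjp.symm)
    · exact h1 i hi
  refine ⟨(EE_inj p).comp hHi, ?_⟩
  intro X hX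
  have h1 : X.image (fun x => EE p (fun i => H i x))
      = (X.image (fun x i => H i x)).image (EE p) := by
    rw [Finset.image_image]; rfl
  have h2 : pr (X.image (fun x i => H i x)) p = pr X p := by
    unfold pr
    rw [Finset.image_image]
    apply Finset.image_congr
    intro x _
    simp only [Function.comp]
    rw [hH p hjp.symm]
  rw [h1, EE_lam p _ (hX.image _), h2, Finset.card_image_of_injective _ hHi]

theorem IsHom.stepA (h : IsHom ξ) {n : ℕ} (p : Fin n) : ξ n (EE p) = p := by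
  classical
  by_contra hne
  have hlt : ξ n (EE p) < n := h.1 n _ (EE_mem p)
  set j : Fin n := ⟨ξ n (EE p), hlt⟩ with hj
  have hjv : ξ n (EE p) = (j : ℕ) := rfl
  have hjp : j ≠ p := by
    intro hh
    apply hne
    rw [hjv, hh]
  obtain ⟨J, hJi, hJ⟩ := exists_has (pk (0 : Fin 2))
  have hJm : J ∈ C 2 := ⟨_, good_pk _, hJ⟩
  have gen : ∀ a b : Fin n, (fun x : Fin n → ℕ => J (fun t => (![fun x : Fin n → ℕ => x a,
      fun x : Fin n → ℕ => x b] : Fin 2 → (Fin n → ℕ) → ℕ) t x)) ∈ C n ∧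
      ξ n (fun x : Fin n → ℕ => J (fun t => (![fun x : Fin n → ℕ => x a,
      fun x : Fin n → ℕ => x b] : Fin 2 → (Fin n → ℕ) → ℕ) t x))
        = if ξ 2 J = 0 then (a : ℕ) else b := by
    intro a b
    have hm : ∀ t, (![fun x : Fin n → ℕ => x a,
      fun x : Fin n → ℕ => x b] : Fin 2 → (Fin n → ℕ) → ℕ) t ∈ C n := by
      intro t
      fin_cases t
      · exact proj_mem a
      · exact proj_mem b
    refine ⟨comp_mem hJm hm, ?_⟩
    have h2 : ξ 2 J < 2 := h.1 2 J hJm
    by_cases h0 : ξ 2 J = 0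
    · rw [if_pos h0]
      rw [h.2.2 2 n J _ hJm hm 0 h0]
      exact h.2.1 n a
    · rw [if_neg h0]
      have h1 : ξ 2 J = ((1 : Fin 2) : ℕ) := by simp; omega
      rw [h.2.2 2 n J _ hJm hm 1 h1]
      exact h.2.1 n b
  have main : ∀ a b : Fin n, ((a = j ∧ b = p) ∨ (a = p ∧ b = j)) → 
      ∃ F : (Fin n → ℕ) → ℕ, F ∈ C n ∧ Function.Injective F ∧
        (∀ X : Finset (Fin n → ℕ), X.Nonempty → lam (X.image F) =
          if (pr X p).card = X.card then lam (pr X p) else 0) ∧
        ξ n F = if ξ 2 J = 0 then (a : ℕ) else b := by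
    intro a b hab
    obtain ⟨hG, hξG⟩ := gen a b
    set G : (Fin n → ℕ) → ℕ := (fun x : Fin n → ℕ => J (fun t => (![fun x : Fin n → ℕ => x a,
      fun x : Fin n → ℕ => x b] : Fin 2 → (Fin n → ℕ) → ℕ) t x)) with hGdef
    let H : Fin n → (Fin n → ℕ) → ℕ := fun i => if i = j then G else fun x => x i
    have hHj : H j = G := by simp [H]
    have hHi : ∀ i, i ≠ j → H i = fun x => x i := by
      intro i hi
      simp [H, hi]
    have hHm : ∀ i, H i ∈ C n := by
      intro i
      by_cases hi : i = j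
      · subst hi; rw [hHj]; exact hG
      · rw [hHi i hi]; exact proj_mem i
    obtain ⟨h1, h2⟩ := stepA_aux p j hjp H hHi (by
      intro x x' hxx hp
      rw [hHj] at hxx
      have h3 := hJi hxx
      have h4 := congrFun h3 0
      have h5 := congrFun h3 1
      simp at h4 h5
      rcases hab with ⟨ha, hb⟩ | ⟨ha, hb⟩
      · rw [ha] at h4; exact h4
      · rw [hb] at h5; exact h5)
    refine ⟨_, comp_mem (EE_mem p) hHm, h1, h2, ?_⟩
    rw [h.2.2 n n (EE p) H (EE_mem p) hHm j hjv, hHj]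
    exact hξG
  obtain ⟨F, hF1, hF2, hF3, hF4⟩ := main j p (Or.inl ⟨rfl, rfl⟩)
  obtain ⟨F', hF1', hF2', hF3', hF4'⟩ := main p j (Or.inr ⟨rfl, rfl⟩)
  have := h.same hF1 hF1' hF2 hF2' (fun X hX => by rw [hF3 X hX, hF3' X hX])
  rw [hF4, hF4'] at this
  split_ifs at this
  · exact hjp (Fin.ext this)
  · exact hjp (Fin.ext this.symm)

/-- the value of a homomorphism depends on the type only -/
theorem IsHom.stepB (h : IsHom ξ) {n : ℕ} {f f' : (Fin n → ℕ) → ℕ} {κ κ' : K n} (hg : good κ)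
    (hg' : good κ') (hf : Has f κ) (hf' : Has f' κ') (hκ : ∀ k, 1 ≤ k → ∀ v, fm κ k v = fm κ' k v) :
    ξ n f = ξ n f' := by
  classical
  have key : ∀ (F : (Fin n → ℕ) → ℕ) (μ : K n), good μ → Has F μ →
      Function.Injective (fun x : Fin n → ℕ => F (fun i => EE i x)) ∧
      ∀ X : Finset (Fin n → ℕ), X.Nonempty → lam (X.image (fun x => F (fun i => EE i x))) =
        fm μ X.card (fun i => lam (X.image (EE i))) := by
    intro F μ hμ hF
    have h1 : ∀ X : Finset (Fin n → ℕ), X.Nonempty →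
        (X.image (fun x => F (fun i => EE i x))).card = X.card ∧
        lam (X.image (fun x => F (fun i => EE i x))) =
          fm μ X.card (fun i => lam (X.image (EE i))) := by
      intro X hX
      obtain ⟨a1, a2, a3⟩ := tr_comp (X := X) (g := fun i => EE i) hμ.pos
        (fun i => Finset.card_image_of_injective _ (EE_inj i))
      have h4 : X.image (fun x => F (fun i => EE i x))
          = (X.image (fun x i => EE i x)).image F := by
        rw [Finset.image_image]; rfl
      obtain ⟨b1, b2⟩ := hF _ (hX.image _) a3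
      rw [h4]
      refine ⟨b1.trans a2, ?_⟩
      rw [b2, a2]
      congr 1
      funext i
      rw [a1]
    refine ⟨?_, fun X hX => (h1 X hX).2⟩
    intro x x' hxx
    by_contra hne
    have := (h1 {x, x'} (by simp)).1
    rw [Finset.image_insert, Finset.image_singleton, Finset.card_pair hne] at this
    simp only at hxx
    rw [hxx] at this
    simp at this
  obtain ⟨a1, a2⟩ := key f κ hg hf
  obtain ⟨b1, b2⟩ := key f' κ' hg' hf'
  have hfm : f ∈ C n := ⟨κ, hg, hf⟩
  have hfm' : f' ∈ C n := ⟨κ', hg', hf'⟩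
  have e := h.same (comp_mem hfm (fun i => EE_mem i)) (comp_mem hfm' (fun i => EE_mem i)) a1 b1
    (fun X hX => by
      rw [a2 X hX, b2 X hX]
      exact hκ _ (Finset.card_pos.2 hX) _)
  have hval : ∀ F : (Fin n → ℕ) → ℕ, F ∈ C n →
      ξ n (fun x => F (fun i => EE i x)) = ξ n F := by
    intro F hF
    have hlt := h.1 n F hF
    rw [h.2.2 n n F (fun i => EE i) hF (fun i => EE_mem i) ⟨ξ n F, hlt⟩ rfl, h.stepA]
  rw [hval f hfm, hval f' hfm'] at e
  exact e

end Pool.Agent.H743R3
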