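import Mathlib
import Pool.Agent.H743R3.CloneNo

set_option autoImplicit false

namespace Pool.Agent.H743R3

open Filter Topology

variable {ξ : ∀ n : ℕ, ((Fin n → ℕ) → ℕ) → ℕ}

open Classical in
/-- the type that reads the first colour on `S` and the second one elsewhere -/
noncomputable def dS (S : Set (ℕ × ZMod 2)) : K 2 :=
  (![0, 1], fun _ => 0, fun k b => if b 0 = b 1 ∧ (k, b 0) ∈ S then 0 else 1)

theorem good_dS (S : Set (ℕ × ZMod 2)) : good (dS S) := by
  simp [good, dS]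

open Classical in
theorem fm_dS (S : Set (ℕ × ZMod 2)) (k : ℕ) (v : Fin 2 → V) :
    fm (dS S) k v = ((v 1).1, if (v 0).1 = (v 1).1 ∧ (k, (v 0).1) ∈ S then (v 0).2 else (v 1).2) := by
  unfold fm dS
  simp only [Fin.sum_univ_two, Matrix.cons_val_zero, Matrix.cons_val_one, zero_mul, one_mul,
    zero_add, add_zero]
  split_ifs <;> rfl

noncomputable def fS (S : Set (ℕ × ZMod 2)) : (Fin 2 → ℕ) → ℕ := (exists_has (dS S)).choose

theorem fS_inj (S : Set (ℕ × ZMod 2)) : Function.Injective (fS S) :=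
  (exists_has (dS S)).choose_spec.1

theorem fS_has (S : Set (ℕ × ZMod 2)) : Has (fS S) (dS S) :=
  (exists_has (dS S)).choose_spec.2

theorem fS_mem (S : Set (ℕ × ZMod 2)) : fS S ∈ C 2 := ⟨_, good_dS S, fS_has S⟩

theorem w_empty (h : IsHom ξ) : ξ 2 (fS ∅) = 1 := by
  have := h.stepB (good_dS ∅) (good_pk (1 : Fin 2)) (fS_has ∅) (has_proj 1) (by
    intro k _ v
    rw [fm_dS, fm_pk]
    simp)
  rw [this]
  exact h.2.1 2 1

/-- minority type -/
def mK : K 3 := (fun _ => 1, fun _ => 0, fun _ b => if b 1 = b 2 then 0 else if b 0 = b 2 then 1 else 2)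

theorem good_mK : good mK := by
  refine ⟨?_, fun k l => by simp [mK]⟩
  simp [mK]
  decide

theorem fm_mK (k : ℕ) (w : Fin 3 → V) : fm mK k w = ((w 0).1 + (w 1).1 + (w 2).1,
    if (w 1).1 = (w 2).1 then (w 0).2 else if (w 0).1 = (w 2).1 then (w 1).2 else (w 2).2) := by
  unfold fm mK
  simp only [Fin.sum_univ_three, one_mul, add_zero]
  split_ifs <;> rfl

theorem w_univ (h : IsHom ξ) : ξ 2 (fS Set.univ) = 0 := by
  obtain ⟨m, _, hm⟩ := exists_has mK
  have hmm : m ∈ C 3 := ⟨_, good_mK, hm⟩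
  have hlt : ξ 3 m < 3 := h.1 3 m hmm
  -- first substitution
  let η1 : Fin 3 → K 2 := ![pk 1, pk 0, pk 0]
  let g1 : Fin 3 → (Fin 2 → ℕ) → ℕ := ![fun x => x 1, fun x => x 0, fun x => x 0]
  have hg1 : ∀ i, Has (g1 i) (η1 i) := by
    intro i
    fin_cases i
    · exact has_proj 1
    · exact has_proj 0
    · exact has_proj 0
  have hg1g : ∀ i, good (η1 i) := by
    intro i
    fin_cases i
    · exact good_pk 1
    · exact good_pk 0
    · exact good_pk 0
  have hg1m : ∀ i, g1 i ∈ C 2 := fun i => ⟨_, hg1g i, hg1 i⟩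
  have e1 : ξ 2 (fun x => m (fun i => g1 i x)) = 1 := by
    have := h.stepB (good_ck good_mK hg1g) (good_pk (1 : Fin 2)) (has_comp (by norm_num) hm hg1)
      (has_proj 1) (by
        intro k _ v
        rw [fm_ck, fm_pk, fm_mK]
        have a0 : fm (η1 0) k v = v 1 := fm_pk 1 k v
        have a1 : fm (η1 1) k v = v 0 := fm_pk 0 k v
        have a2 : fm (η1 2) k v = v 0 := fm_pk 0 k v
        rw [a0, a1, a2, if_pos rfl, add_assoc, CharTwo.add_self_eq_zero, add_zero])
    rw [this]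
    exact h.2.1 2 1
  have hm0 : ξ 3 m = 0 := by
    by_contra hne
    have hcases : ξ 3 m = 1 ∨ ξ 3 m = 2 := by omega
    rcases hcases with h1 | h2
    · have := h.2.2 3 2 m g1 hmm hg1m 1 h1
      rw [e1] at this
      have h3 : ξ 2 (g1 1) = 0 := h.2.1 2 0
      omega
    · have := h.2.2 3 2 m g1 hmm hg1m 2 h2
      rw [e1] at this
      have h3 : ξ 2 (g1 2) = 0 := h.2.1 2 0
      omega
  let η2 : Fin 3 → K 2 := ![pk 0, pk 0, pk 1]
  let g2 : Fin 3 → (Fin 2 → ℕ) → ℕ := ![fun x => x 0, fun x => x 0, fun x => x 1]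
  have hg2 : ∀ i, Has (g2 i) (η2 i) := by
    intro i
    fin_cases i
    · exact has_proj 0
    · exact has_proj 0
    · exact has_proj 1
  have hg2g : ∀ i, good (η2 i) := by
    intro i
    fin_cases i
    · exact good_pk 0
    · exact good_pk 0
    · exact good_pk 1
  have hg2m : ∀ i, g2 i ∈ C 2 := fun i => ⟨_, hg2g i, hg2 i⟩
  have e2 : ξ 2 (fun x => m (fun i => g2 i x)) = ξ 2 (fS Set.univ) := by
    apply h.stepB (good_ck good_mK hg2g) (good_dS Set.univ) (has_comp (by norm_num) hm hg2)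
      (fS_has Set.univ)
    intro k _ v
    rw [fm_ck, fm_dS, fm_mK]
    have a0 : fm (η2 0) k v = v 0 := fm_pk 0 k v
    have a1 : fm (η2 1) k v = v 0 := fm_pk 0 k v
    have a2 : fm (η2 2) k v = v 1 := fm_pk 1 k v
    rw [a0, a1, a2, CharTwo.add_self_eq_zero, zero_add]
    simp only [Set.mem_univ, and_true]
    split_ifs <;> rfl
  rw [← e2, h.2.2 3 2 m g2 hmm hg2m 0 hm0]
  exact h.2.1 2 0

theorem two_comp (h : IsHom ξ) {f : (Fin 2 → ℕ) → ℕ} (hf : f ∈ C 2) {a b : (Fin 2 → ℕ) → ℕ}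
    (ha : a ∈ C 2) (hb : b ∈ C 2) :
    ξ 2 (fun x => f (fun i => (![a, b] : Fin 2 → (Fin 2 → ℕ) → ℕ) i x))
      = if ξ 2 f = 0 then ξ 2 a else ξ 2 b := by
  have hm : ∀ t, (![a, b] : Fin 2 → (Fin 2 → ℕ) → ℕ) t ∈ C 2 := by
    intro t
    fin_cases t
    · exact ha
    · exact hb
  have hlt : ξ 2 f < 2 := h.1 2 f hf
  by_cases h0 : ξ 2 f = 0
  · rw [if_pos h0, h.2.2 2 2 f _ hf hm 0 h0]; rfl
  · rw [if_neg h0]
    have h1 : ξ 2 f = ((1 : Fin 2) : ℕ) := by simp; omega
    rw [h.2.2 2 2 f _ hf hm 1 h1]; rfl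

theorem two_type (h : IsHom ξ) {f : (Fin 2 → ℕ) → ℕ} {κ α β : K 2} (hf : Has f κ) (hκ : good κ)
    {a b : (Fin 2 → ℕ) → ℕ} (ha : Has a α) (hb : Has b β) (hα : good α) (hβ : good β)
    {F : (Fin 2 → ℕ) → ℕ} {μ : K 2} (hμ : good μ) (hF : Has F μ)
    (heq : ∀ k, 1 ≤ k → ∀ v, fm κ k ![fm α k v, fm β k v] = fm μ k v) :
    ξ 2 F = if ξ 2 f = 0 then ξ 2 a else ξ 2 b := by
  rw [← two_comp h ⟨κ, hκ, hf⟩ ⟨α, hα, ha⟩ ⟨β, hβ, hb⟩]
  have hm : ∀ t, Has ((![a, b] : Fin 2 → (Fin 2 → ℕ) → ℕ) t) ((![α, β] : Fin 2 → K 2) t) := by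
    intro t
    fin_cases t
    · exact ha
    · exact hb
  have hm' : ∀ t, good ((![α, β] : Fin 2 → K 2) t) := by
    intro t
    fin_cases t
    · exact hα
    · exact hβ
  apply h.stepB hμ (good_ck hκ hm') hF (has_comp (by norm_num) hf hm)
  intro k hk v
  rw [fm_ck, ← heq k hk v]
  congr 1
  funext i
  fin_cases i <;> rfl

theorem w_inter (h : IsHom ξ) (S T : Set (ℕ × ZMod 2)) :
    ξ 2 (fS (S ∩ T)) = if ξ 2 (fS S) = 0 then ξ 2 (fS T) else 1 := by
  classical
  have := two_type h (fS_has S) (good_dS S) (fS_has T) (has_proj (1 : Fin 2)) (good_dS T)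
    (good_pk 1) (good_dS (S ∩ T)) (fS_has (S ∩ T)) (by
      intro k _ v
      rw [fm_dS, fm_dS, fm_pk, fm_dS]
      simp only [Matrix.cons_val_zero, Matrix.cons_val_one, Set.mem_inter_iff]
      by_cases hv : (v 0).1 = (v 1).1
      · simp only [hv, true_and]
        by_cases hS : (k, (v 1).1) ∈ S <;> by_cases hT : (k, (v 1).1) ∈ T <;> simp [hS, hT]
      · simp [hv])
  rw [this, h.2.1 2 1]
  rfl

theorem w_union (h : IsHom ξ) (S T : Set (ℕ × ZMod 2)) :
    ξ 2 (fS (S ∪ T)) = if ξ 2 (fS S) = 0 then 0 else ξ 2 (fS T) := by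
  classical
  have := two_type h (fS_has S) (good_dS S) (has_proj (0 : Fin 2)) (fS_has T) (good_pk 0)
    (good_dS T) (good_dS (S ∪ T)) (fS_has (S ∪ T)) (by
      intro k _ v
      rw [fm_dS, fm_dS, fm_pk, fm_dS]
      simp only [Matrix.cons_val_zero, Matrix.cons_val_one, Set.mem_union]
      by_cases hv : (v 0).1 = (v 1).1
      · simp only [hv, true_and]
        by_cases hS : (k, (v 1).1) ∈ S <;> by_cases hT : (k, (v 1).1) ∈ T <;> simp [hS, hT]
      · simp [hv])
  rw [this, h.2.1 2 0]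
  rfl

theorem w_shift (h : IsHom ξ) (g : ℕ → ZMod 2) (hg : ∀ k l, g (k ^^^ l) = g k + g l)
    (S : Set (ℕ × ZMod 2)) :
    ξ 2 (fS {t | (t.1, t.2 + g t.1) ∈ S}) = ξ 2 (fS S) := by
  classical
  let κ : K 1 := (fun _ => 1, g, fun _ _ => 0)
  have hκ : good κ := ⟨by simp [κ], hg⟩
  have hfmκ : ∀ k (v : Fin 1 → V), fm κ k v = ((v 0).1 + g k, (v 0).2) := by
    intro k v
    simp [fm, κ]
  obtain ⟨u, _, hu⟩ := exists_has κ
  have hum : u ∈ C 1 := ⟨κ, hκ, hu⟩
  have hcg : ∀ (i : Fin 2), good (ck κ (fun _ => pk i)) := fun i => good_ck hκ (fun _ => good_pk i)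
  have hch : ∀ (i : Fin 2), Has (fun x : Fin 2 → ℕ => u (fun _ => x i)) (ck κ (fun _ => pk i)) :=
    fun i => has_comp (by norm_num) hu (fun _ => has_proj i)
  have hfc : ∀ (i : Fin 2) k v, fm (ck κ (fun _ => pk i)) k v = ((v i).1 + g k, (v i).2) := by
    intro i k v
    rw [fm_ck, hfmκ, fm_pk]
  have hm : ∀ t, Has ((![fun x : Fin 2 → ℕ => u (fun _ => x 0), fun x : Fin 2 → ℕ => u (fun _ => x 1)]
      : Fin 2 → (Fin 2 → ℕ) → ℕ) t)
      ((![ck κ (fun _ => pk 0), ck κ (fun _ => pk 1)] : Fin 2 → K 2) t) := by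
    intro t
    fin_cases t
    · exact hch 0
    · exact hch 1
  have hm' : ∀ t, good ((![ck κ (fun _ => pk 0), ck κ (fun _ => pk 1)] : Fin 2 → K 2) t) := by
    intro t
    fin_cases t
    · exact hcg 0
    · exact hcg 1
  have hF := has_comp (by norm_num) (fS_has S) hm
  have hFg := good_ck (good_dS S) hm'
  have hG := has_comp (n := 1) (by norm_num) hu (fun _ => hF)
  have hGg := good_ck (n := 1) hκ (fun _ => hFg)
  have e1 := h.stepB (good_dS {t | (t.1, t.2 + g t.1) ∈ S}) hGg (fS_has _) hG (by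
    intro k _ v
    rw [fm_ck, hfmκ, fm_ck, fm_dS, fm_dS]
    have hv0 : fm ((![ck κ (fun _ => pk 0), ck κ (fun _ => pk 1)] : Fin 2 → K 2) 0) k v
      = ((v 0).1 + g k, (v 0).2) := hfc 0 k v
    have hv1 : fm ((![ck κ (fun _ => pk 0), ck κ (fun _ => pk 1)] : Fin 2 → K 2) 1) k v
      = ((v 1).1 + g k, (v 1).2) := hfc 1 k v
    rw [hv0, hv1]
    simp only [add_left_inj]
    rw [add_assoc, CharTwo.add_self_eq_zero, add_zero]
    rfl)
  rw [e1, h.unary hum ⟨_, hFg, hF⟩, two_comp h (fS_mem S) ⟨_, hcg 0, hch 0⟩ ⟨_, hcg 1, hch 1⟩,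
    h.unary hum (proj_mem 0), h.unary hum (proj_mem 1), h.2.1, h.2.1]
  have hlt := h.1 2 _ (fS_mem S)
  split_ifs with h0
  · simp [h0]
  · simp; omega

theorem w_single (h : IsHom ξ) (k : ℕ) (hk : 1 ≤ k) (b : ZMod 2) : ξ 2 (fS {(k, b)}) ≠ 0 := by
  intro h0
  obtain ⟨j, hj⟩ : ∃ j, k.testBit j = true := by
    by_contra hcon
    push Not at hcon
    have : k = 0 := Nat.eq_of_testBit_eq (fun i => by
      rw [Nat.zero_testBit]
      have := hcon i
      simpa using this)
    omega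
  let g : ℕ → ZMod 2 := fun l => if l.testBit j then 1 else 0
  have hg : ∀ k l, g (k ^^^ l) = g k + g l := by
    intro k l
    simp only [g, Nat.testBit_xor]
    cases k.testBit j <;> cases l.testBit j <;> simp <;> decide
  have hgk : g k = 1 := by simp [g, hj]
  have h1 := w_shift h g hg {(k, b)}
  rw [h0] at h1
  have h2 := w_inter h {(k, b)} {t | (t.1, t.2 + g t.1) ∈ ({(k, b)} : Set (ℕ × ZMod 2))}
  rw [if_pos h0, h1] at h2
  have h3 : ({(k, b)} : Set (ℕ × ZMod 2)) ∩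
      {t | (t.1, t.2 + g t.1) ∈ ({(k, b)} : Set (ℕ × ZMod 2))} = ∅ := by
    ext t
    simp only [Set.mem_inter_iff, Set.mem_singleton_iff, Set.mem_ofPred_eq, Set.mem_empty_iff_false,
      iff_false, not_and]
    rintro rfl h4
    simp only [Prod.mk.injEq, true_and] at h4
    rw [hgk] at h4
    have : (1 : ZMod 2) = 0 := by
      have h5 : b + 1 = b + 0 := by rw [h4, add_zero]
      exact add_left_cancel h5
    exact one_ne_zero this
  rw [h3, w_empty h] at h2
  exact one_ne_zero h2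

theorem w_fin (h : IsHom ξ) (N : ℕ) : ξ 2 (fS {t | t.1 ≤ N}) ≠ 0 := by
  induction N with
  | zero =>
    have := h.stepB (good_dS {t | t.1 ≤ 0}) (good_dS ∅) (fS_has _) (fS_has _) (by
      intro k hk v
      rw [fm_dS, fm_dS]
      have : k ≠ 0 := by omega
      simp [this])
    rw [this, w_empty h]
    exact one_ne_zero
  | succ N ih =>
    have hset : {t : ℕ × ZMod 2 | t.1 ≤ N + 1} = {t | t.1 ≤ N} ∪ ({(N + 1, 0)} ∪ {(N + 1, 1)}) := by
      ext ⟨k, b⟩
      simp only [Set.mem_ofPred_eq, Set.mem_union, Set.mem_singleton_iff, Prod.mk.injEq]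
      have hb : b = 0 ∨ b = 1 := by
        fin_cases b
        · left; rfl
        · right; rfl
      constructor
      · intro hk
        by_cases h1 : k ≤ N
        · exact Or.inl h1
        · right
          have : k = N + 1 := by omega
          rcases hb with hb | hb
          · exact Or.inl ⟨this, hb⟩
          · exact Or.inr ⟨this, hb⟩
      · rintro (h1 | ⟨h1, _⟩ | ⟨h1, _⟩) <;> omega
    rw [hset, w_union h, if_neg ih, w_union h, if_neg (w_single h (N + 1) (by omega) 0)]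
    exact w_single h (N + 1) (by omega) 1

/-- continuity yields a finite set in the ultrafilter -/
theorem w_cont (h : IsHom ξ) (hc : ContinuousOn (ξ 2) (C 2)) : ∃ N, ξ 2 (fS {t | t.1 ≤ N}) = 0 := by
  classical
  set f0 := fS Set.univ with hf0
  have h1 : ∀ᶠ f in 𝓝[C 2] f0, ξ 2 f = ξ 2 f0 := by
    have := hc f0 (fS_mem _)
    unfold ContinuousWithinAt at this
    rw [nhds_discrete, tendsto_pure] at this
    exact this
  rw [eventually_iff, mem_nhdsWithin] at h1
  obtain ⟨u, huo, hf0u, hu⟩ := h1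
  rw [isOpen_pi_iff] at huo
  obtain ⟨I, u', hu'1, hu'2⟩ := huo f0 hf0u
  refine ⟨I.card, ?_⟩
  let L : Finset (Fin 2 → ℕ) → V := fun X => if X ⊆ I then lam (X.image f0) else
    fm (dS {t | t.1 ≤ I.card}) X.card (fun j => lam (pr X j))
  obtain ⟨f1, hi, hl, hp⟩ := exists_embedding (L := L) (M := lam) lam_EP
    (p := I.image (fun x => (x, f0 x))) (by
      constructor
      · intro a ha b hb
        obtain ⟨x, _, rfl⟩ := Finset.mem_image.1 ha
        obtain ⟨y, _, rfl⟩ := Finset.mem_image.1 hb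
        simp only
        constructor
        · intro hxy; rw [hxy]
        · intro hxy; exact fS_inj _ hxy
      · intro q hq _
        have hsub : q.image Prod.fst ⊆ I := by
          intro x hx
          obtain ⟨a, ha, rfl⟩ := Finset.mem_image.1 hx
          obtain ⟨y, hy, hya⟩ := Finset.mem_image.1 (hq ha)
          rw [← hya]; exact hy
        have him : q.image Prod.snd = (q.image Prod.fst).image f0 := by
          rw [Finset.image_image]
          apply Finset.image_congr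
          intro a ha
          obtain ⟨y, hy, hya⟩ := Finset.mem_image.1 (hq ha)
          simp only [Function.comp]
          rw [← hya]
        simp only [L]
        rw [if_pos hsub, him])
  have hhas : Has f1 (dS {t | t.1 ≤ I.card}) := by
    apply has_of_formula hi
    intro X hX hT
    rw [hl X hX]
    simp only [L]
    split_ifs with hsub
    · rw [(fS_has Set.univ X hX hT).2, fm_dS, fm_dS]
      have hle : X.card ≤ I.card := Finset.card_le_card hsub
      simp [hle]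
    · rfl
  have hmem : f1 ∈ C 2 := ⟨_, good_dS _, hhas⟩
  have hval : ξ 2 f1 = ξ 2 f0 := by
    apply hu
    refine ⟨hu'2 ?_, hmem⟩
    intro x hx
    have : f1 x = f0 x := hp (x, f0 x) (Finset.mem_image_of_mem _ hx)
    rw [this]
    exact (hu'1 x hx).2
  have := h.stepB (good_dS _) (good_dS _) hhas (fS_has {t | t.1 ≤ I.card}) (fun k _ v => rfl)
  rw [← this, hval, hf0]
  exact w_univ h

theorem no_continuous (h : IsHom ξ) (hc : ∀ n, ContinuousOn (ξ n) (C n)) : False := by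
  obtain ⟨N, hN⟩ := w_cont h (hc 2)
  exact w_fin h N hN

end Pool.Agent.H743R3
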