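import Mathlib
import Pool.Agent.H743R3.Generic

set_option autoImplicit false

namespace Pool.Agent.H743R3.Nary

variable {n k : ℕ}

/-- extension property of an n-ary colouring -/
def EP {W : Type} (M : (Fin n → W) → Fin (k + 1)) : Prop :=
  ∀ (F : Finset W) (Φ : (Fin n → Option W) → Fin (k + 1)), ∃ y, y ∉ F ∧
    ∀ t : Fin n → Option W, (∀ i z, t i = some z → z ∈ F) → (∃ i, t i = none) →
      M (fun i => (t i).getD y) = Φ t

theorem exists_dec (n k : ℕ) :
    ∃ dec : ℕ → ((Fin n → Option ℕ) →₀ Fin (k + 1)), Function.Surjective dec :=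
  exists_surjective_nat _

theorem exists_generic (n k : ℕ) : ∃ M : (Fin n → ℕ) → Fin (k + 1), EP M := by
  classical
  obtain ⟨dec, hdec⟩ := exists_dec n k
  refine ⟨fun t => dec (Nat.unpair (Finset.univ.sup t)).1
    (fun i => if t i = Finset.univ.sup t then none else some (t i)), ?_⟩
  intro F Φ
  obtain ⟨m, hm⟩ := hdec (Finsupp.indicator
    (Fintype.piFinset (fun _ : Fin n => insert none (F.image some))) (fun t _ => Φ t))
  set r := F.sup id + 1 with hr
  set y := Nat.pair m r with hy
  have hyF : ∀ x ∈ F, x < y := by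
    intro x hx
    have h1 : x ≤ F.sup id := Finset.le_sup (f := id) hx
    have h2 : r ≤ y := Nat.right_le_pair m r
    omega
  have hnot : y ∉ F := fun h => lt_irrefl _ (hyF y h)
  refine ⟨y, hnot, ?_⟩
  intro t ht hne
  have hle : ∀ i, (t i).getD y ≤ y := by
    intro i
    cases hti : t i with
    | none => simp
    | some z => simp only [Option.getD_some]; exact (hyF z (ht i z hti)).le
  have hsup : Finset.univ.sup (fun i => (t i).getD y) = y := by
    apply le_antisymm
    · exact Finset.sup_le (fun i _ => hle i)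
    · obtain ⟨i, hi⟩ := hne
      have : (fun i => (t i).getD y) i ≤ Finset.univ.sup (fun i => (t i).getD y) :=
        Finset.le_sup (f := fun i => (t i).getD y) (Finset.mem_univ i)
      simpa [hi] using this
  simp only [hsup]
  have hfun : (fun i => if (t i).getD y = y then none else some ((t i).getD y)) = t := by
    funext i
    cases hti : t i with
    | none => simp
    | some z =>
      have : z ≠ y := (hyF z (ht i z hti)).ne
      simp [this]
  rw [hfun, hy, Nat.unpair_pair]
  simp only
  rw [hm]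
  apply Finsupp.indicator_of_mem
  rw [Fintype.mem_piFinset]
  intro i
  cases hti : t i with
  | none => exact Finset.mem_insert_self _ _
  | some z => exact Finset.mem_insert_of_mem (Finset.mem_image_of_mem _ (ht i z hti))

section BF

variable {Z W : Type}

def PE (L : (Fin n → Z) → Fin (k + 1)) (M : (Fin n → W) → Fin (k + 1)) (p : Finset (Z × W)) : Prop :=
  (∀ a ∈ p, ∀ b ∈ p, a.1 = b.1 ↔ a.2 = b.2) ∧
  ∀ u : Fin n → Z × W, (∀ i, u i ∈ p) → L (fun i => (u i).1) = M (fun i => (u i).2)

theorem forth {L : (Fin n → Z) → Fin (k + 1)} {M : (Fin n → W) → Fin (k + 1)} (hM : EP M)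
    {p : Finset (Z × W)} (hp : PE L M p) (z : Z) :
    ∃ p', p ⊆ p' ∧ PE L M p' ∧ ∃ w, (z, w) ∈ p' := by
  classical
  by_cases hz : ∃ w, (z, w) ∈ p
  · exact ⟨p, Finset.Subset.refl _, hp, hz⟩
  · have hinv : ∀ w, ∃ z', w ∈ p.image Prod.snd → (z', w) ∈ p := by
      intro w
      by_cases hw : w ∈ p.image Prod.snd
      · obtain ⟨a, ha, rfl⟩ := Finset.mem_image.1 hw
        exact ⟨a.1, fun _ => ha⟩
      · exact ⟨z, fun h => absurd h hw⟩
    choose inv hinv using hinv
    obtain ⟨y, hy, hyΦ⟩ := hM (p.image Prod.snd) (fun t => L (fun i => (t i).elim z inv))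
    have hinv' : ∀ a ∈ p, inv a.2 = a.1 := by
      intro a ha
      have h1 := hinv a.2 (Finset.mem_image_of_mem _ ha)
      exact (hp.1 _ h1 _ ha).2 rfl
    refine ⟨insert (z, y) p, Finset.subset_insert _ _, ⟨?_, ?_⟩, y, Finset.mem_insert_self _ _⟩
    · intro a ha b hb
      rcases Finset.mem_insert.1 ha with rfl | ha'
      · rcases Finset.mem_insert.1 hb with rfl | hb'
        · simp
        · constructor
          · intro h
            exact absurd ⟨b.2, by rw [show z = b.1 from h]; exact hb'⟩ hz
          · intro h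
            exact absurd (Finset.mem_image.2 ⟨b, hb', h.symm⟩) hy
      · rcases Finset.mem_insert.1 hb with rfl | hb'
        · constructor
          · intro h
            exact absurd ⟨a.2, by rw [show z = a.1 from h.symm]; exact ha'⟩ hz
          · intro h
            exact absurd (Finset.mem_image.2 ⟨a, ha', h⟩) hy
        · exact hp.1 a ha' b hb'
    · intro u hu
      by_cases hall : ∀ i, u i ∈ p
      · exact hp.2 u hall
      · push Not at hall
        obtain ⟨i0, hi0⟩ := hall
        have hi0' : u i0 = (z, y) := by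
          rcases Finset.mem_insert.1 (hu i0) with h | h
          · exact h
          · exact absurd h hi0
        have key := hyΦ (fun i => if u i = (z, y) then none else some (u i).2) (by
          intro i w hw
          by_cases h : u i = (z, y)
          · simp [h] at hw
          · simp only [h, if_false, Option.some.injEq] at hw
            rcases Finset.mem_insert.1 (hu i) with h' | h'
            · exact absurd h' h
            · rw [← hw]; exact Finset.mem_image_of_mem _ h') ⟨i0, by simp [hi0']⟩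
        have e1 : (fun i => (if u i = (z, y) then none else some (u i).2 : Option W).getD y)
            = fun i => (u i).2 := by
          funext i
          by_cases h : u i = (z, y)
          · simp [h]
          · simp [h]
        have e2 : (fun i => (if u i = (z, y) then none else some (u i).2 : Option W).elim z inv)
            = fun i => (u i).1 := by
          funext i
          by_cases h : u i = (z, y)
          · simp [h]
          · simp only [h, if_false, Option.elim_some]
            rcases Finset.mem_insert.1 (hu i) with h' | h'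
            · exact absurd h' h
            · exact hinv' _ h'
        rw [e1, e2] at key
        exact key.symm

theorem PE.swap {L : (Fin n → Z) → Fin (k + 1)} {M : (Fin n → W) → Fin (k + 1)}
    [DecidableEq Z] [DecidableEq W] {p : Finset (Z × W)} (hp : PE L M p) :
    PE M L (p.image Prod.swap) := by
  constructor
  · intro a ha b hb
    obtain ⟨a', ha', rfl⟩ := Finset.mem_image.1 ha
    obtain ⟨b', hb', rfl⟩ := Finset.mem_image.1 hb
    exact (hp.1 a' ha' b' hb').symm
  · intro u hu
    have h1 : ∀ i, (u i).swap ∈ p := by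
      intro i
      obtain ⟨c, hc, hcb⟩ := Finset.mem_image.1 (hu i)
      rw [← hcb]; simpa using hc
    exact (hp.2 _ h1).symm

theorem back {L : (Fin n → Z) → Fin (k + 1)} {M : (Fin n → W) → Fin (k + 1)} (hL : EP L)
    {p : Finset (Z × W)} (hp : PE L M p) (w : W) : ∃ p', p ⊆ p' ∧ PE L M p' ∧ ∃ z, (z, w) ∈ p' := by
  classical
  obtain ⟨p', h1, h2, z, hz⟩ := forth hL hp.swap w
  refine ⟨p'.image Prod.swap, ?_, h2.swap, z, ?_⟩
  · intro a ha
    apply Finset.mem_image.2
    exact ⟨a.swap, h1 (Finset.mem_image_of_mem _ ha), by simp⟩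
  · exact Finset.mem_image.2 ⟨(w, z), hz, rfl⟩

theorem PE_empty (hn : 0 < n) (L : (Fin n → Z) → Fin (k + 1)) (M : (Fin n → W) → Fin (k + 1)) :
    PE L M ∅ := by
  refine ⟨by simp, ?_⟩
  intro u hu
  have := hu ⟨0, hn⟩
  simp at this

theorem exists_embedding [Countable Z] {L : (Fin n → Z) → Fin (k + 1)}
    {M : (Fin n → W) → Fin (k + 1)} (hn : 0 < n) (hM : EP M) :
    ∃ j : Z → W, ∀ u : Fin n → Z, M (fun i => j (u i)) = L u := by
  classical
  rcases isEmpty_or_nonempty Z with hZ | hZ
  · exact ⟨fun z => (hZ.false z).elim, fun u => (hZ.false (u ⟨0, hn⟩)).elim⟩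
  obtain ⟨e, he⟩ := exists_surjective_nat Z
  obtain ⟨P, hP0, hPm, hPQ, hPD⟩ := chain (PE L M) (fun m q => ∃ w, (e m, w) ∈ q)
    (fun m q hq => forth hM hq (e m)) ∅ (PE_empty hn L M)
  have hall : ∀ z, ∃ w, ∃ m, (z, w) ∈ P m := by
    intro z
    obtain ⟨m, rfl⟩ := he z
    obtain ⟨w, hw⟩ := hPD m
    exact ⟨w, m, hw⟩
  choose j nn hj using hall
  refine ⟨j, ?_⟩
  intro u
  have h1 : ∀ i, (u i, j (u i)) ∈ P (Finset.univ.sup (fun i => nn (u i))) := by
    intro i
    exact hPm (Finset.le_sup (f := fun i => nn (u i)) (Finset.mem_univ i)) (hj (u i))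
  exact ((hPQ _).2 (fun i => (u i, j (u i))) h1).symm

theorem exists_equiv [Countable Z] [Countable W] {L : (Fin n → Z) → Fin (k + 1)}
    {M : (Fin n → W) → Fin (k + 1)} (hL : EP L) (hM : EP M) {p : Finset (Z × W)}
    (hp : PE L M p) :
    ∃ j : Z ≃ W, (∀ u : Fin n → Z, M (fun i => j (u i)) = L u) ∧ ∀ a ∈ p, j a.1 = a.2 := by
  classical
  have : Nonempty W := by
    obtain ⟨y, _⟩ := hM ∅ (fun _ => 0); exact ⟨y⟩
  have : Nonempty Z := by
    obtain ⟨y, _⟩ := hL ∅ (fun _ => 0); exact ⟨y⟩
  obtain ⟨e, he⟩ := exists_surjective_nat Z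
  obtain ⟨e', he'⟩ := exists_surjective_nat W
  obtain ⟨P, hP0, hPm, hPQ, hPD⟩ := chain (PE L M)
    (fun m q => (∃ w, (e m, w) ∈ q) ∧ ∃ z, (z, e' m) ∈ q)
    (fun m q hq => by
      obtain ⟨q1, h1, h2, w, hw⟩ := forth hM hq (e m)
      obtain ⟨q2, h3, h4, z, hz⟩ := back hL h2 (e' m)
      exact ⟨q2, h1.trans h3, h4, ⟨w, h3 hw⟩, z, hz⟩) p hp
  have hall : ∀ z, ∃ w, ∃ m, (z, w) ∈ P m := by
    intro z
    obtain ⟨m, rfl⟩ := he z
    obtain ⟨⟨w, hw⟩, _⟩ := hPD m
    exact ⟨w, m, hw⟩
  choose j nn hj using hall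
  have hinj : Function.Injective j := by
    intro z z' h
    have h1 : (z, j z) ∈ P (max (nn z) (nn z')) := hPm (le_max_left _ _) (hj z)
    have h2 : (z', j z') ∈ P (max (nn z) (nn z')) := hPm (le_max_right _ _) (hj z')
    exact ((hPQ _).1 _ h1 _ h2).2 h
  have hsurj : Function.Surjective j := by
    intro w
    obtain ⟨m, rfl⟩ := he' w
    obtain ⟨_, z, hz⟩ := hPD m
    refine ⟨z, ?_⟩
    have h1 : (z, j z) ∈ P (max m (nn z)) := hPm (le_max_right _ _) (hj z)
    have h2 : (z, e' m) ∈ P (max m (nn z)) := hPm (le_max_left _ _) hz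
    exact ((hPQ _).1 _ h1 _ h2).1 rfl
  refine ⟨Equiv.ofBijective j ⟨hinj, hsurj⟩, ?_, ?_⟩
  · intro u
    have h1 : ∀ i, (u i, j (u i)) ∈ P (Finset.univ.sup (fun i => nn (u i))) := by
      intro i
      exact hPm (Finset.le_sup (f := fun i => nn (u i)) (Finset.mem_univ i)) (hj (u i))
    exact ((hPQ _).2 (fun i => (u i, j (u i))) h1).symm
  · intro a ha
    have h1 : a ∈ P (nn a.1) := hPm (Nat.zero_le _) (hP0 ha)
    exact ((hPQ (nn a.1)).1 _ (hj a.1) _ h1).1 rfl

end BF

/-- homogeneity: tuples of the same isomorphism type are conjugate -/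
theorem homog {M : (Fin n → ℕ) → Fin (k + 1)} (hM : EP M) {m : ℕ} (s x : Fin m → ℕ)
    (h1 : ∀ i j, s i = s j ↔ x i = x j)
    (h2 : ∀ v : Fin n → Fin m, M (fun i => s (v i)) = M (fun i => x (v i))) :
    ∃ σ : ℕ ≃ ℕ, (∀ u : Fin n → ℕ, M (fun i => σ (u i)) = M u) ∧ ∀ i, σ (s i) = x i := by
  classical
  obtain ⟨σ, h3, h4⟩ := exists_equiv (L := M) (M := M) hM hM
    (p := Finset.univ.image (fun i : Fin m => (s i, x i))) (by
      constructor
      · intro a ha b hb
        obtain ⟨i, _, rfl⟩ := Finset.mem_image.1 ha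
        obtain ⟨j, _, rfl⟩ := Finset.mem_image.1 hb
        exact h1 i j
      · intro u hu
        have : ∀ i, ∃ v : Fin m, (s v, x v) = u i := by
          intro i
          obtain ⟨v, _, hv⟩ := Finset.mem_image.1 (hu i)
          exact ⟨v, hv⟩
        choose v hv using this
        have := h2 v
        have e1 : (fun i => (u i).1) = fun i => s (v i) := by
          funext i; rw [← hv i]
        have e2 : (fun i => (u i).2) = fun i => x (v i) := by
          funext i; rw [← hv i]
        rw [e1, e2]
        exact this)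
  exact ⟨σ, h3, fun i => h4 (s i, x i) (Finset.mem_image_of_mem _ (Finset.mem_univ i))⟩

end Pool.Agent.H743R3.Nary
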