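import Mathlib

set_option autoImplicit false

open FirstOrder FirstOrder.Language Set

namespace Pool.Agent.H743R3.Sib

/-- relation symbols: one binary symbol for each element of the group -/
inductive Rel (G : Type) : ℕ → Type
  | r (a : G) : Rel G 2

/-- the relational language with one binary relation symbol for each element of the group -/
def LG (G : Type) : FirstOrder.Language.{0,0} := ⟨fun _ => Empty, Rel G⟩

instance (G : Type) : (LG G).IsRelational := fun _ => inferInstanceAs (IsEmpty Empty)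

variable {G : Type} [Group G]

/-- a subset of the group with `R_a(x,y)` iff `y = x a` -/
instance str (S : Set G) : (LG G).Structure S where
  funMap := fun f => nomatch f
  RelMap := fun {_} r => match r with
    | Rel.r a => fun x => (x 1 : G) = (x 0 : G) * a

/-- The relation symbol. -/
def R (a : G) : (LG G).Relations 2 := Rel.r a

theorem relMap_R (S : Set G) (a : G) (x : Fin 2 → S) :
    Structure.RelMap (R a) x ↔ (x 1 : G) = (x 0 : G) * a := Iff.rfl

/-- definable unary sets -/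
abbrev U1 (S : Set G) (U : Set S) : Prop := (univ : Set S).Definable₁ (LG G) U

theorem def_R (S : Set G) {α : Type} (a : G) (i j : α) :
    (univ : Set S).Definable (LG G) {x : α → S | (x j : G) = (x i : G) * a} := by
  refine Definable.mono (A := ∅) ?_ (empty_subset _)
  rw [empty_definable_iff]
  refine ⟨(R a).formula₂ (Term.var i) (Term.var j), ?_⟩
  ext x
  simp only [mem_ofPred_eq, Formula.realize_rel₂, Term.realize_var]
  rw [relMap_R]
  simp

theorem U1.pre {S : Set G} {U : Set S} (h : U1 S U) {α : Type} (i : α) :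
    (univ : Set S).Definable (LG G) {x : α → S | x i ∈ U} :=
  Definable.preimage_comp (fun _ : Fin 1 => i) h

theorem U1.shift {S : Set G} {U : Set S} (h : U1 S U) (a : G) :
    U1 S {z : S | ∃ w : S, (w : G) = z * a ∧ w ∈ U} := by
  have h1 : (univ : Set S).Definable (LG G)
      ({x : Fin 2 → S | (x 1 : G) = (x 0 : G) * a} ∩ {x : Fin 2 → S | x 1 ∈ U}) :=
    (def_R S a 0 1).inter (h.pre 1)
  have h2 := h1.image_comp (fun _ : Fin 1 => (0 : Fin 2))
  unfold U1 Definable₁
  convert h2 using 1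
  ext x
  simp only [mem_ofPred_eq, mem_image, mem_inter_iff]
  constructor
  · rintro ⟨w, hw, hU⟩
    refine ⟨![x 0, w], ⟨by simpa using hw, by simpa using hU⟩, ?_⟩
    funext i
    fin_cases i
    simp
  · rintro ⟨y, ⟨h1, h2⟩, rfl⟩
    exact ⟨y 1, h1, h2⟩

theorem U1.compl' {S : Set G} {U : Set S} (h : U1 S U) : U1 S Uᶜ := Definable.compl h

theorem U1.inter' {S : Set G} {U V : Set S} (h : U1 S U) (h' : U1 S V) : U1 S (U ∩ V) :=
  Definable.inter h h'

theorem U1.union' {S : Set G} {U V : Set S} (h : U1 S U) (h' : U1 S V) : U1 S (U ∪ V) :=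
  Definable.union h h'

theorem U1_univ {S : Set G} : U1 S univ := definable_univ

theorem U1_empty {S : Set G} : U1 S ∅ := definable_empty

theorem U1_singleton {S : Set G} (m : S) : U1 S {m} := by
  have := Definable.singleton_of_mem (L := LG G) (mem_univ m)
  exact this

/-- truth-value equivalence of tuples with respect to a finite set of group elements and a finite
set of unary sets -/
def Eqv {S : Set G} {ι : Type} (D : Set G) (𝒰 : Set (Set S)) (z z' : ι → S) : Prop :=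
  (∀ i, ∀ U ∈ 𝒰, (z i ∈ U ↔ z' i ∈ U)) ∧
  (∀ i j, ∀ a ∈ D, ((z j : G) = (z i : G) * a ↔ (z' j : G) = (z' i : G) * a))

theorem Eqv.symm {S : Set G} {ι : Type} {D : Set G} {𝒰 : Set (Set S)} {z z' : ι → S}
    (h : Eqv D 𝒰 z z') : Eqv D 𝒰 z' z :=
  ⟨fun i U hU => (h.1 i U hU).symm, fun i j a ha => (h.2 i j a ha).symm⟩

theorem Eqv.mono {S : Set G} {ι : Type} {D D' : Set G} {𝒰 𝒰' : Set (Set S)} {z z' : ι → S}
    (hD : D ⊆ D') (hU : 𝒰 ⊆ 𝒰') (h : Eqv D' 𝒰' z z') : Eqv D 𝒰 z z' :=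
  ⟨fun i U hU' => h.1 i U (hU hU'), fun i j a ha => h.2 i j a (hD ha)⟩

theorem ext_lemma {S : Set G} (D : Set G) (hD : D.Finite) (𝒰 : Set (Set S)) (h𝒰 : 𝒰.Finite)
    (hdef : ∀ U ∈ 𝒰, U1 S U) :
    ∃ (D' : Set G) (𝒰' : Set (Set S)), D'.Finite ∧ 𝒰'.Finite ∧ D ⊆ D' ∧ 𝒰 ⊆ 𝒰' ∧
      (∀ U ∈ 𝒰', U1 S U) ∧ ∀ (ι : Type) [Finite ι] (z z' : ι → S), Eqv D' 𝒰' z z' → ∀ y : S,
        ∃ y' : S, (∀ U ∈ 𝒰, (y ∈ U ↔ y' ∈ U)) ∧
          (∀ i, ∀ a ∈ D, ((y : G) = (z i : G) * a ↔ (y' : G) = (z' i : G) * a)) ∧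
          (∀ i, ∀ a ∈ D, ((z i : G) = (y : G) * a ↔ (z' i : G) = (y' : G) * a)) := by
  classical
  -- symmetric closure
  set E : Set G := (D ∪ (fun a => a⁻¹) '' D) ∪ {1} with hE
  have hEfin : E.Finite := (hD.union (hD.image _)).union (finite_singleton _)
  have hDE : D ⊆ E := fun a ha => Or.inl (Or.inl ha)
  have h1E : (1 : G) ∈ E := Or.inr rfl
  have hEinv : ∀ a ∈ E, a⁻¹ ∈ E := by
    rintro a ((ha | ⟨b, hb, rfl⟩) | ha)
    · exact Or.inl (Or.inr ⟨a, ha, rfl⟩)
    · left; left; simpa using hb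
    · right
      rw [mem_singleton_iff] at ha ⊢
      rw [ha, inv_one]
  set D' : Set G := Set.image2 (· * ·) E E with hD'
  have hD'fin : D'.Finite := hEfin.image2 _ hEfin
  have hED' : E ⊆ D' := fun a ha => ⟨a, ha, 1, h1E, mul_one a⟩
  -- finite classes
  let C : S → Set S := fun y => {y' | ∀ U ∈ 𝒰, (y ∈ U ↔ y' ∈ U)}
  set FC : Set S := {y | (C y).Finite} with hFC
  have hFCfin : FC.Finite := by
    have h1 : (⋃ T ∈ {T : Set (Set S) | T ⊆ 𝒰 ∧
        ({y : S | ∀ U ∈ 𝒰, (y ∈ U ↔ U ∈ T)} : Set S).Finite},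
        {y : S | ∀ U ∈ 𝒰, (y ∈ U ↔ U ∈ T)}).Finite := by
      refine Set.Finite.biUnion (h𝒰.finite_subsets.subset (fun T hT => hT.1)) ?_
      intro T hT
      exact hT.2
    refine h1.subset ?_
    intro y hy
    simp only [mem_iUnion]
    have hcl : ({y' : S | ∀ U ∈ 𝒰, (y' ∈ U ↔ U ∈ {U | U ∈ 𝒰 ∧ y ∈ U})} : Set S) = C y := by
      ext y'
      constructor
      · intro h U hU
        have := h U hU
        constructor
        · intro h1; exact this.2 ⟨hU, h1⟩
        · intro h1; exact (this.1 h1).2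
      · intro h U hU
        have := h U hU
        constructor
        · intro h1; exact ⟨hU, this.2 h1⟩
        · intro h1; exact this.1 h1.2
    refine ⟨{U | U ∈ 𝒰 ∧ y ∈ U}, ⟨fun U hU => hU.1, ?_⟩, ?_⟩
    · rw [hcl]; exact hy
    · rw [hcl]; intro U hU; exact Iff.rfl
  set F : Set S := {m | ∃ a ∈ E, ∃ c ∈ FC, (m : G) * a = c} with hF
  have hFfin : F.Finite := by
    have h1 : (Set.image2 (fun (c : S) (a : G) => (c : G) * a⁻¹) FC E).Finite :=
      hFCfin.image2 _ hEfin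
    have h2 := h1.preimage (f := (Subtype.val : S → G)) Subtype.val_injective.injOn
    refine h2.subset ?_
    rintro m ⟨a, ha, c, hc, h⟩
    exact ⟨c, hc, a, ha, by simp [← h]⟩
  let sh : Set S → G → Set S := fun U a => {z : S | ∃ w : S, (w : G) = z * a ∧ w ∈ U}
  set 𝒰' : Set (Set S) := ((𝒰 ∪ Set.image2 sh 𝒰 E) ∪ (sh univ '' E)) ∪ ((fun m => {m}) '' F)
    with h𝒰'
  have h𝒰'fin : 𝒰'.Finite :=
    ((h𝒰.union (h𝒰.image2 _ hEfin)).union (hEfin.image _)).union (hFfin.image _)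
  refine ⟨D', 𝒰', hD'fin, h𝒰'fin, hDE.trans hED', fun U hU => Or.inl (Or.inl (Or.inl hU)), ?_, ?_⟩
  · rintro U (((hU | ⟨V, hV, a, -, rfl⟩) | ⟨a, -, rfl⟩) | ⟨m, -, rfl⟩)
    · exact hdef U hU
    · exact (hdef V hV).shift a
    · exact U1_univ.shift a
    · exact U1_singleton m
  · intro ι _ z z' hz y
    by_cases hc : ∃ i, ∃ a ∈ E, (y : G) = (z i : G) * a
    · obtain ⟨i, a, ha, hy⟩ := hc
      have h1 : z i ∈ sh univ a := ⟨y, hy, mem_univ _⟩
      have h2 : z' i ∈ sh univ a := (hz.1 i _ (Or.inl (Or.inr ⟨a, ha, rfl⟩))).1 h1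
      obtain ⟨y', hy', -⟩ := h2
      refine ⟨y', ?_, ?_, ?_⟩
      · intro U hU
        have h3 := hz.1 i (sh U a) (Or.inl (Or.inl (Or.inr ⟨U, hU, a, ha, rfl⟩)))
        constructor
        · intro hyU
          obtain ⟨w, hw, hwU⟩ := h3.1 ⟨y, hy, hyU⟩
          have : w = y' := Subtype.ext (hw.trans hy'.symm)
          rwa [← this]
        · intro hyU
          obtain ⟨w, hw, hwU⟩ := h3.2 ⟨y', hy', hyU⟩
          have : w = y := Subtype.ext (hw.trans hy.symm)
          rwa [← this]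
      · intro j b hb
        have h3 := hz.2 j i (b * a⁻¹) ⟨b, hDE hb, a⁻¹, hEinv a ha, rfl⟩
        rw [hy, hy']
        rw [← mul_assoc, ← mul_assoc, eq_mul_inv_iff_mul_eq, eq_mul_inv_iff_mul_eq] at h3
        exact h3
      · intro j b hb
        have h3 := hz.2 i j (a * b) ⟨a, ha, b, hDE hb, rfl⟩
        rw [hy, hy', mul_assoc, mul_assoc]
        exact h3
    · push Not at hc
      have hc' : ∀ i, ∀ a ∈ D, ¬ (y : G) = (z i : G) * a := fun i a ha => hc i a (hDE ha)
      have hc'' : ∀ i, ∀ a ∈ D, ¬ (z i : G) = (y : G) * a := by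
        intro i a ha h
        exact hc i a⁻¹ (hEinv a (hDE ha)) (by rw [h]; simp)
      have key : ∀ y' : S, (∀ i, ∀ a ∈ E, (y' : G) ≠ (z' i : G) * a) →
          ((∀ i, ∀ a ∈ D, ((y : G) = (z i : G) * a ↔ (y' : G) = (z' i : G) * a)) ∧
          (∀ i, ∀ a ∈ D, ((z i : G) = (y : G) * a ↔ (z' i : G) = (y' : G) * a))) := by
        intro y' hy'
        refine ⟨fun i a ha => iff_of_false (hc' i a ha) (hy' i a (hDE ha)),
          fun i a ha => iff_of_false (hc'' i a ha) ?_⟩
        intro h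
        exact hy' i a⁻¹ (hEinv a (hDE ha)) (by rw [h]; simp)
      by_cases hfin : (C y).Finite
      · refine ⟨y, fun U hU => Iff.rfl, key y ?_⟩
        intro i a ha h
        have hm : z' i ∈ F := ⟨a, ha, y, hfin, h.symm⟩
        have h4 := (hz.1 i {z' i} (Or.inr ⟨z' i, hm, rfl⟩)).2 rfl
        rw [mem_singleton_iff] at h4
        exact hc i a ha (by rw [h4]; exact h)
      · have hbad : (Set.image2 (fun (i : ι) (a : G) => (z' i : G) * a) univ E).Finite :=
          (Set.finite_univ).image2 _ hEfin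
        have hbad' := hbad.preimage (f := (Subtype.val : S → G)) Subtype.val_injective.injOn
        obtain ⟨y', hy', hy'2⟩ := (Set.Infinite.diff hfin hbad').nonempty
        refine ⟨y', hy', key y' ?_⟩
        intro i a ha h
        exact hy'2 ⟨i, mem_univ _, a, ha, h.symm⟩

end Pool.Agent.H743R3.Sib
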