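import Pool.Agent.H743R3.SibA

set_option autoImplicit false

open FirstOrder FirstOrder.Language Set

namespace Pool.Agent.H743R3.Sib

variable {G : Type} [Group G]

theorem term_cases {S : Set G} {n k : ℕ} (t : (LG G).Term (((univ : Set S) ⊕ Fin n) ⊕ Fin k)) :
    (∃ m : S, ∀ (v : Fin n → S) (xs : Fin k → S),
      t.realize (Sum.elim (Sum.elim (fun m : (univ : Set S) => (m : S)) v) xs) = m) ∨
    (∃ i : Fin n ⊕ Fin k, ∀ (v : Fin n → S) (xs : Fin k → S),
      t.realize (Sum.elim (Sum.elim (fun m : (univ : Set S) => (m : S)) v) xs)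
        = Sum.elim v xs i) := by
  cases t with
  | var w =>
    rcases w with (m | i) | j
    · exact Or.inl ⟨m, fun v xs => rfl⟩
    · exact Or.inr ⟨Sum.inl i, fun v xs => rfl⟩
    · exact Or.inr ⟨Sum.inr j, fun v xs => rfl⟩
  | func f ts => exact nomatch f

theorem finite_U1 {S : Set G} (U : Set S) (h : ∀ x ∈ U, ∀ y ∈ U, x = y) : U1 S U := by
  rcases U.eq_empty_or_nonempty with h1 | ⟨x, hx⟩
  · rw [h1]; exact U1_empty
  · have : U = {x} := by
      ext y
      exact ⟨fun hy => h y hy x hx, fun hy => by rw [mem_singleton_iff] at hy; rw [hy]; exact hx⟩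
    rw [this]; exact U1_singleton x

/-- property of a predicate of pairs of tuples: it depends only on finitely many basic conditions -/
def Good (S : Set G) (n k : ℕ) (P : (Fin n → S) → (Fin k → S) → Prop) : Prop :=
  ∃ (D : Set G) (𝒰 : Set (Set S)), D.Finite ∧ 𝒰.Finite ∧ (∀ U ∈ 𝒰, U1 S U) ∧
    ∀ (v v' : Fin n → S) (xs xs' : Fin k → S), Eqv D 𝒰 (Sum.elim v xs) (Sum.elim v' xs') →
      (P v xs ↔ P v' xs')

theorem good_atom {S : Set G} {n k : ℕ} (t₁ t₂ : (LG G).Term (((univ : Set S) ⊕ Fin n) ⊕ Fin k))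
    (a : G) : Good S n k (fun v xs =>
      ((t₂.realize (Sum.elim (Sum.elim (fun m : (univ : Set S) => (m : S)) v) xs) : S) : G) =
      ((t₁.realize (Sum.elim (Sum.elim (fun m : (univ : Set S) => (m : S)) v) xs) : S) : G) * a) := by
  rcases term_cases t₁ with ⟨m₁, h₁⟩ | ⟨i₁, h₁⟩ <;> rcases term_cases t₂ with ⟨m₂, h₂⟩ | ⟨i₂, h₂⟩
  · refine ⟨∅, ∅, finite_empty, finite_empty, by simp, ?_⟩
    intro v v' xs xs' _
    simp only [h₁, h₂]
  · refine ⟨∅, {{z : S | (z : G) = m₁ * a}}, finite_empty, finite_singleton _, ?_, ?_⟩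
    · rintro U rfl
      apply finite_U1
      intro x hx y hy
      exact Subtype.ext (hx.trans hy.symm)
    · intro v v' xs xs' h
      simp only [h₁, h₂]
      exact h.1 i₂ _ rfl
  · refine ⟨∅, {{z : S | (m₂ : G) = z * a}}, finite_empty, finite_singleton _, ?_, ?_⟩
    · rintro U rfl
      apply finite_U1
      intro x hx y hy
      apply Subtype.ext
      exact mul_right_cancel ((Eq.symm hx).trans hy)
    · intro v v' xs xs' h
      simp only [h₁, h₂]
      exact h.1 i₁ _ rfl
  · refine ⟨{a}, ∅, finite_singleton _, finite_empty, by simp, ?_⟩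
    intro v v' xs xs' h
    simp only [h₁, h₂]
    exact h.2 i₁ i₂ a rfl

theorem good_formula {S : Set G} {n k : ℕ} (φ : (LG G).BoundedFormula ((univ : Set S) ⊕ Fin n) k) :
    Good S n k (fun v xs => φ.Realize (Sum.elim (fun m : (univ : Set S) => (m : S)) v) xs) := by
  induction φ with
  | falsum =>
    refine ⟨∅, ∅, finite_empty, finite_empty, by simp, ?_⟩
    intro v v' xs xs' _
    exact Iff.rfl
  | equal t₁ t₂ =>
    obtain ⟨D, 𝒰, h1, h2, h3, h4⟩ := good_atom t₁ t₂ 1
    refine ⟨D, 𝒰, h1, h2, h3, ?_⟩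
    intro v v' xs xs' h
    have := h4 v v' xs xs' h
    simp only [mul_one] at this
    simp only [BoundedFormula.Realize]
    rw [eq_comm, ← Subtype.coe_inj, this, Subtype.coe_inj, eq_comm]
  | rel r ts =>
    cases r with
    | r a =>
      obtain ⟨D, 𝒰, h1, h2, h3, h4⟩ := good_atom (ts 0) (ts 1) a
      refine ⟨D, 𝒰, h1, h2, h3, ?_⟩
      intro v v' xs xs' h
      exact h4 v v' xs xs' h
  | imp φ ψ ih₁ ih₂ =>
    obtain ⟨D, 𝒰, h1, h2, h3, h4⟩ := ih₁
    obtain ⟨D', 𝒰', h1', h2', h3', h4'⟩ := ih₂
    refine ⟨D ∪ D', 𝒰 ∪ 𝒰', h1.union h1', h2.union h2', ?_, ?_⟩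
    · rintro U (hU | hU)
      · exact h3 U hU
      · exact h3' U hU
    · intro v v' xs xs' h
      simp only [BoundedFormula.realize_imp]
      exact imp_congr (h4 v v' xs xs' (h.mono subset_union_left subset_union_left))
        (h4' v v' xs xs' (h.mono subset_union_right subset_union_right))
  | all φ ih =>
    obtain ⟨D, 𝒰, h1, h2, h3, h4⟩ := ih
    obtain ⟨D', 𝒰', h1', h2', hD, h𝒰, h3', h4'⟩ := ext_lemma D h1 𝒰 h2 h3
    refine ⟨D', 𝒰', h1', h2', h3', ?_⟩
    have key : ∀ (v v' : Fin n → S) (xs xs' : Fin _ → S),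
        Eqv D' 𝒰' (Sum.elim v xs) (Sum.elim v' xs') →
        (∀ y, φ.Realize (Sum.elim (fun m : (univ : Set S) => (m : S)) v) (Fin.snoc xs y)) →
        (∀ y, φ.Realize (Sum.elim (fun m : (univ : Set S) => (m : S)) v') (Fin.snoc xs' y)) := by
      intro v v' xs xs' h hv y'
      obtain ⟨y, ha, hb, hc⟩ := h4' _ _ _ h.symm y'
      refine (h4 v v' (Fin.snoc xs y) (Fin.snoc xs' y') ?_).1 (hv y)
      constructor
      · intro i U hU
        rcases i with i | i
        · exact h.1 (Sum.inl i) U (h𝒰 hU)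
        · refine Fin.lastCases ?_ (fun i => ?_) i
          · simpa using (ha U hU).symm
          · simpa using h.1 (Sum.inr i) U (h𝒰 hU)
      · intro i j a haD
        rcases i with i | i <;> rcases j with j | j
        · exact h.2 (Sum.inl i) (Sum.inl j) a (hD haD)
        · refine Fin.lastCases ?_ (fun j => ?_) j
          · simpa using (hb (Sum.inl i) a haD).symm
          · simpa using h.2 (Sum.inl i) (Sum.inr j) a (hD haD)
        · refine Fin.lastCases ?_ (fun i => ?_) i
          · simpa using (hc (Sum.inl j) a haD).symm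
          · simpa using h.2 (Sum.inr i) (Sum.inl j) a (hD haD)
        · refine Fin.lastCases ?_ (fun i => ?_) i
          · refine Fin.lastCases ?_ (fun j => ?_) j
            · simp
            · simpa using (hc (Sum.inr j) a haD).symm
          · refine Fin.lastCases ?_ (fun j => ?_) j
            · simpa using (hb (Sum.inr i) a haD).symm
            · simpa using h.2 (Sum.inr i) (Sum.inr j) a (hD haD)
    intro v v' xs xs' h
    simp only [BoundedFormula.realize_all]
    exact ⟨key v v' xs xs' h, key v' v xs' xs h.symm⟩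

/-- A definable subset of `S ^ n` is a union of classes of some `Eqv D 𝒰`. -/
theorem good_definable {S : Set G} {n : ℕ} {s : Set (Fin n → S)}
    (hs : (univ : Set S).Definable (LG G) s) :
    ∃ (D : Set G) (𝒰 : Set (Set S)), D.Finite ∧ 𝒰.Finite ∧ (∀ U ∈ 𝒰, U1 S U) ∧
      ∀ v v' : Fin n → S, Eqv D 𝒰 v v' → (v ∈ s ↔ v' ∈ s) := by
  rw [definable_iff_exists_formula_sum] at hs
  obtain ⟨φ, rfl⟩ := hs
  obtain ⟨D, 𝒰, h1, h2, h3, h4⟩ := good_formula (S := S) (n := n) (k := 0) φ
  refine ⟨D, 𝒰, h1, h2, h3, ?_⟩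
  intro v v' h
  refine h4 v v' default default ?_
  constructor
  · intro i U hU
    rcases i with i | i
    · exact h.1 i U hU
    · exact i.elim0
  · intro i j a ha
    rcases i with i | i
    · rcases j with j | j
      · exact h.2 i j a ha
      · exact j.elim0
    · exact i.elim0

/-- general Boolean combination lemma -/
theorem bool_comb {X : Type} (F : Set (Set X)) (h0 : ∅ ∈ F) (hc : ∀ u ∈ F, uᶜ ∈ F)
    (hu : ∀ u ∈ F, ∀ v ∈ F, u ∪ v ∈ F) {K : Type} [Finite K] (B : K → Set X) (hB : ∀ k, B k ∈ F)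
    (s : Set X) (hs : ∀ x x', (∀ k, x ∈ B k ↔ x' ∈ B k) → (x ∈ s ↔ x' ∈ s)) : s ∈ F := by
  classical
  have hi : ∀ u ∈ F, ∀ v ∈ F, u ∩ v ∈ F := by
    intro u hu' v hv'
    have := hc _ (hu _ (hc _ hu') _ (hc _ hv'))
    rwa [compl_union, compl_compl, compl_compl] at this
  have hU : ∀ (ι : Type) [Finite ι] (f : ι → Set X), (∀ i, f i ∈ F) → (⋃ i, f i) ∈ F := by
    intro ι _ f hf
    have : ∀ t : Set ι, t.Finite → (⋃ i ∈ t, f i) ∈ F := by
      intro t ht
      induction t, ht using Set.Finite.induction_on with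
      | empty => simpa using h0
      | insert _ _ ih =>
        rw [biUnion_insert]
        exact hu _ (hf _) _ ih
    have := this univ finite_univ
    simpa using this
  have hI : ∀ (ι : Type) [Finite ι] (f : ι → Set X), (∀ i, f i ∈ F) → (⋂ i, f i) ∈ F := by
    intro ι _ f hf
    have := hc _ (hU ι (fun i => (f i)ᶜ) (fun i => hc _ (hf i)))
    rwa [compl_iUnion, show (fun i => (f i)ᶜᶜ) = f from by funext i; exact compl_compl _] at this
  let cell : Set K → Set X := fun A => ⋂ k, (if k ∈ A then B k else (B k)ᶜ)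
  have hcell : ∀ A, cell A ∈ F := by
    intro A
    refine hI K _ (fun k => ?_)
    split_ifs
    · exact hB k
    · exact hc _ (hB k)
  have : s = ⋃ A : {A : Set K // (cell A ⊆ s)}, cell A.1 := by
    ext x
    simp only [mem_iUnion]
    constructor
    · intro hx
      have hx' : x ∈ cell {k | x ∈ B k} := by
        simp only [cell, mem_iInter]
        intro k
        by_cases h : x ∈ B k
        · simp [h]
        · simp [h]
      refine ⟨⟨{k | x ∈ B k}, ?_⟩, hx'⟩
      intro y hy
      refine (hs x y ?_).1 hx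
      intro k
      simp only [cell, mem_iInter] at hy
      have := hy k
      by_cases h : x ∈ B k
      · have h' : y ∈ B k := by simpa [h] using this
        exact ⟨fun _ => h', fun _ => h⟩
      · have h' : y ∉ B k := by simpa [h] using this
        exact ⟨fun h1 => absurd h1 h, fun h1 => absurd h1 h'⟩
    · rintro ⟨A, hA⟩
      exact A.2 hA
  rw [this]
  exact hU _ _ (fun A => hcell A.1)

/-- Every subset of a group, as a structure with the right translations, is mutually algebraic, in
the form used by the frozen statement. -/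
theorem mutually_algebraic (S : Set G) (n : ℕ) (s : Set (Fin n → S))
    (hs : (univ : Set S).Definable (LG G) s) (F : Set (Set (Fin n → S)))
    (h0 : ∅ ∈ F) (hc : ∀ u ∈ F, uᶜ ∈ F) (hu : ∀ u ∈ F, ∀ v ∈ F, u ∪ v ∈ F)
    (hb : ∀ (m : ℕ) (f : Fin m → Fin n) (t : Set (Fin m → S)), Function.Injective f →
           (Set.univ : Set S).Definable (LG G) t →
           (m = 1 ∨ (2 ≤ m ∧ ∃ K : ℕ, ∀ (i : Fin m) (a : S),
              ({b ∈ t | b i = a}).encard ≤ (K : ℕ∞))) →
           {x : Fin n → S | x ∘ f ∈ t} ∈ F) : s ∈ F := by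
  classical
  obtain ⟨D, 𝒰, hD, h𝒰, hdef, hall⟩ := good_definable hs
  have hfD : Finite D := hD
  have hf𝒰 : Finite 𝒰 := h𝒰
  let B : (Fin n × 𝒰) ⊕ (Fin n × Fin n × D) → Set (Fin n → S) := fun k => match k with
    | Sum.inl (i, U) => {x | x i ∈ U.1}
    | Sum.inr (i, j, a) => {x | (x j : G) = (x i : G) * a.1}
  refine bool_comb F h0 hc hu B ?_ s ?_
  · rintro (⟨i, U⟩ | ⟨i, j, a⟩)
    · have := hb 1 (fun _ => i) {b | b 0 ∈ U.1} (fun x y _ => Subsingleton.elim _ _)
        (hdef U.1 U.2) (Or.inl rfl)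
      exact this
    · by_cases hij : i = j
      · subst hij
        by_cases ha : a.1 = 1
        · have : B (Sum.inr (i, i, a)) = univ := by
            ext x
            simp [B, ha]
          rw [this, ← compl_empty]
          exact hc _ h0
        · have : B (Sum.inr (i, i, a)) = ∅ := by
            ext x
            simp [B, ha]
          rw [this]
          exact h0
      · have := hb 2 ![i, j] {b | (b 1 : G) = (b 0 : G) * a.1} ?_ (def_R S a.1 0 1)
          (Or.inr ⟨le_refl _, 1, ?_⟩)
        · exact this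
        · intro x y hxy
          fin_cases x <;> fin_cases y <;> simp_all
        · intro i' m
          rw [Nat.cast_one, Set.encard_le_one_iff]
          rintro b b' ⟨hb1, hb2⟩ ⟨hb1', hb2'⟩
          simp only [mem_ofPred_eq] at hb1 hb1'
          have h01 : b 0 = b' 0 ∧ b 1 = b' 1 := by
            fin_cases i'
            · have h0' : b 0 = b' 0 := by
                have e1 : b 0 = m := hb2
                have e2 : b' 0 = m := hb2'
                rw [e1, e2]
              refine ⟨h0', Subtype.ext ?_⟩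
              rw [hb1, hb1', h0']
            · have h1' : b 1 = b' 1 := by
                have e1 : b 1 = m := hb2
                have e2 : b' 1 = m := hb2'
                rw [e1, e2]
              refine ⟨Subtype.ext ?_, h1'⟩
              rw [h1', hb1'] at hb1
              exact (mul_right_cancel hb1).symm
          funext x
          fin_cases x
          · exact h01.1
          · exact h01.2
  · intro x x' h
    refine hall x x' ⟨?_, ?_⟩
    · intro i U hU
      exact h (Sum.inl (i, ⟨U, hU⟩))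
    · intro i j a ha
      exact h (Sum.inr (i, j, ⟨a, ha⟩))

end Pool.Agent.H743R3.Sib
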