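import Mathlib

set_option autoImplicit false

open Set

namespace Pool.Agent.H743R3.Sib

/-- words -/
abbrev W := List (ℕ × Bool)

/-- code of a pair (word, level): the generator attached to it -/
def enc (x : W) (i : Bool) : ℕ := Encodable.encode (x, i)

theorem enc_inj {x x' : W} {i i' : Bool} (h : enc x i = enc x' i') : x = x' ∧ i = i' := by
  have := Encodable.encode_injective h
  simpa using this

theorem le_enc (x : W) (i : Bool) : Encodable.encode x ≤ enc x i := by
  unfold enc
  rw [Encodable.encode_prod_val]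
  exact Nat.left_le_pair _ _

theorem encode_cons_lt (n : ℕ) (b : Bool) (w : W) : n < Encodable.encode ((n, b) :: w) := by
  rw [Encodable.encode_list_cons]
  refine Nat.lt_succ_of_le (le_trans ?_ (Nat.left_le_pair _ _))
  rw [Encodable.encode_prod_val]
  exact Nat.left_le_pair _ _

theorem encode_tail_lt (a : ℕ × Bool) (w : W) : Encodable.encode w < Encodable.encode (a :: w) := by
  rw [Encodable.encode_list_cons]
  exact Nat.lt_succ_of_le (Nat.right_le_pair _ _)

/-- membership of a word in the set of level `j` -/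
def c (w : W) (j : Bool) : Prop :=
  match w with
  | [] => True
  | (n, b) :: w =>
    match h : Encodable.decode₂ (W × Bool) n with
    | none => False
    | some (x, i) =>
      FreeGroup.reduce x = x ∧ c x i ∧
        (if b then (j = i ∧ c w (!i)) else (j = !i ∧ w ≠ x ∧ c w i))
termination_by Encodable.encode w
decreasing_by
  · rw [Encodable.decode₂_eq_some] at h
    refine lt_of_le_of_lt ?_ (encode_cons_lt n b w)
    rw [← h]
    exact le_enc x i
  · exact encode_tail_lt _ _
  · exact encode_tail_lt _ _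

theorem c_nil (j : Bool) : c [] j := by
  unfold c
  trivial

theorem c_cons_enc (x : W) (i b : Bool) (w : W) (j : Bool) :
    c ((enc x i, b) :: w) j ↔ FreeGroup.reduce x = x ∧ c x i ∧
        (if b then (j = i ∧ c w (!i)) else (j = !i ∧ w ≠ x ∧ c w i)) := by
  rw [c]
  split
  · rename_i h
    exact absurd h (by rw [enc, Encodable.decode₂_encode]; simp)
  · rename_i x' i' h
    rw [enc, Encodable.decode₂_encode] at h
    simp only [Option.some.injEq, Prod.mk.injEq] at h
    obtain ⟨rfl, rfl⟩ := h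
    exact Iff.rfl

theorem c_cons_exists {n : ℕ} {b : Bool} {w : W} {j : Bool} (h : c ((n, b) :: w) j) :
    ∃ x i, n = enc x i := by
  rw [c] at h
  split at h
  · exact absurd h (by simp)
  · rename_i x i h'
    rw [Encodable.decode₂_eq_some] at h'
    exact ⟨x, i, h'.symm⟩

theorem c_pos {x : W} {i : Bool} {w : W} {j : Bool} :
    c ((enc x i, true) :: w) j ↔ FreeGroup.reduce x = x ∧ c x i ∧ j = i ∧ c w (!i) := by
  rw [c_cons_enc]; simp

theorem c_neg {x : W} {i : Bool} {w : W} {j : Bool} :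
    c ((enc x i, false) :: w) j ↔
      FreeGroup.reduce x = x ∧ c x i ∧ j = (!i) ∧ w ≠ x ∧ c w i := by
  rw [c_cons_enc]; simp

theorem ne_cons (x : W) (i b : Bool) (w : W) : x ≠ (enc x i, b) :: w := by
  intro h
  have h1 := encode_cons_lt (enc x i) b w
  rw [← h] at h1
  exact absurd (le_enc x i) (not_le.2 h1)

/-- The set of level `i`. -/
def S (i : Bool) : Set (FreeGroup ℕ) := {g | c g.toWord i}

theorem toWord_letter_mul (n : ℕ) (b : Bool) (g : FreeGroup ℕ) :
    (FreeGroup.mk [(n, b)] * g).toWord =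
      List.casesOn g.toWord [(n, b)] fun hd tl =>
        if n = hd.1 ∧ b = !hd.2 then tl else (n, b) :: hd :: tl := by
  rw [FreeGroup.toWord_mul, FreeGroup.toWord_mk, FreeGroup.reduce_singleton]
  rw [List.singleton_append, FreeGroup.reduce.cons, FreeGroup.reduce_toWord]

/-- translation by a generator -/
theorem trans (x : W) (i : Bool) (hx : FreeGroup.reduce x = x) (hc : c x i) (g : FreeGroup ℕ) :
    (FreeGroup.mk [(enc x i, false)] * g) ∈ S (!i) ↔ (g ∈ S i ∧ g ≠ FreeGroup.mk x) := by
  have hgx : g ≠ FreeGroup.mk x ↔ g.toWord ≠ x := by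
    rw [not_iff_not]
    constructor
    · rintro rfl
      rw [FreeGroup.toWord_mk, hx]
    · intro h
      rw [← h, FreeGroup.mk_toWord]
  rw [hgx]
  change c _ _ ↔ c _ _ ∧ _
  rw [toWord_letter_mul]
  rcases hw : g.toWord with _ | ⟨⟨m, b⟩, tl⟩
  · simp only
    rw [c_neg]
    simp only [hx, hc, true_and, c_nil, and_true]
  · simp only
    by_cases hcan : enc x i = m ∧ false = !b
    · rw [if_pos hcan]
      obtain ⟨rfl, hb⟩ := hcan
      have hb' : b = true := by simpa using hb.symm
      subst hb'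
      rw [c_pos]
      constructor
      · intro h
        exact ⟨⟨hx, hc, rfl, h⟩, (ne_cons x i true tl).symm⟩
      · rintro ⟨⟨-, -, -, h⟩, -⟩
        exact h
    · rw [if_neg hcan, c_neg]
      constructor
      · rintro ⟨-, -, -, h1, h2⟩
        exact ⟨h2, h1⟩
      · rintro ⟨h1, h2⟩
        exact ⟨hx, hc, rfl, h2, h1⟩

/-- path -/
inductive Path : W → Bool → Bool → Prop
  | nil (i : Bool) : Path [] i i
  | pos {x : W} {i : Bool} {w : W} {k : Bool} (hx : FreeGroup.reduce x = x) (hc : c x i)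
      (h : Path w (!i) k) : Path ((enc x i, true) :: w) i k
  | neg {x : W} {i : Bool} {w : W} {k : Bool} (hx : FreeGroup.reduce x = x) (hc : c x i)
      (h : Path w i k) : Path ((enc x i, false) :: w) (!i) k

theorem path_of_append (w s : W) (j : Bool) (h : c (w ++ s) j) : ∃ k, Path w j k ∧ c s k := by
  induction w generalizing j with
  | nil => exact ⟨j, Path.nil j, h⟩
  | cons a w ih =>
    obtain ⟨n, b⟩ := a
    rw [List.cons_append] at h
    obtain ⟨x, i, rfl⟩ := c_cons_exists h
    cases b with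
    | true =>
      rw [c_pos] at h
      obtain ⟨hx, hc, rfl, h⟩ := h
      obtain ⟨k, hk, hs⟩ := ih _ h
      exact ⟨k, Path.pos hx hc hk, hs⟩
    | false =>
      rw [c_neg] at h
      obtain ⟨hx, hc, rfl, -, h⟩ := h
      obtain ⟨k, hk, hs⟩ := ih _ h
      exact ⟨k, Path.neg hx hc hk, hs⟩

theorem level_unique {a : ℕ × Bool} {s : W} {k k' : Bool} (h : c (a :: s) k)
    (h' : c (a :: s) k') : k = k' := by
  obtain ⟨n, b⟩ := a
  obtain ⟨x, i, rfl⟩ := c_cons_exists h
  cases b with
  | true =>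
    rw [c_pos] at h h'
    rw [h.2.2.1, h'.2.2.1]
  | false =>
    rw [c_neg] at h h'
    rw [h.2.2.1, h'.2.2.1]

/-- symmetric difference of a translate with a set -/
def Dif (g : FreeGroup ℕ) (k j : Bool) : Set (FreeGroup ℕ) := {y | ¬ (g⁻¹ * y ∈ S k ↔ y ∈ S j)}

theorem toggle {X : Type} (Z Z' : Set X) (x : X) (h : ∀ y, y ≠ x → (y ∈ Z' ↔ y ∈ Z))
    (hx : x ∈ Z' ↔ x ∉ Z) (hZ : Z.Finite) : Z'.Finite ∧ (Even Z'.ncard ↔ ¬ Even Z.ncard) := by
  classical
  by_cases hxZ : x ∈ Z
  · have h1 : Z = insert x Z' := by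
      ext y
      rw [mem_insert_iff]
      by_cases hy : y = x
      · subst hy; simp [hxZ]
      · simp [hy, h y hy]
    have hfin : Z'.Finite := hZ.subset (by rw [h1]; exact subset_insert _ _)
    refine ⟨hfin, ?_⟩
    have hx' : x ∉ Z' := fun h => (hx.1 h) hxZ
    rw [h1, ncard_insert_of_notMem hx' hfin, Nat.even_add_one, not_not]
  · have h1 : Z' = insert x Z := by
      ext y
      rw [mem_insert_iff]
      by_cases hy : y = x
      · subst hy; simp [hx, hxZ]
      · simp [hy, h y hy]
    rw [h1]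
    refine ⟨hZ.insert x, ?_⟩
    rw [ncard_insert_of_notMem hxZ hZ, Nat.even_add_one]

theorem mk_true_inv (n : ℕ) : (FreeGroup.mk [(n, true)])⁻¹ = FreeGroup.mk [(n, false)] := by
  rw [FreeGroup.inv_mk]; rfl

theorem mk_false_inv (n : ℕ) : (FreeGroup.mk [(n, false)])⁻¹ = FreeGroup.mk [(n, true)] := by
  rw [FreeGroup.inv_mk]; rfl

theorem dif_path {w : W} {j k : Bool} (h : Path w j k) :
    (Dif (FreeGroup.mk w) k j).Finite ∧ (Even (Dif (FreeGroup.mk w) k j).ncard ↔ j = k) := by
  induction h with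
  | nil i =>
    have : Dif (FreeGroup.mk []) i i = ∅ := by
      ext y
      simp [Dif, ← FreeGroup.one_eq_mk]
    rw [this]
    simp
  | @pos x i w k hx hc h ih =>
    -- Dif (ℓ g) k i  vs ℓ • Dif g k (!i)
    set t := FreeGroup.mk [(enc x i, true)] with ht
    have hmul : FreeGroup.mk ((enc x i, true) :: w) = t * FreeGroup.mk w := by
      rw [ht, FreeGroup.mul_mk]; rfl
    set Z : Set (FreeGroup ℕ) := (fun y => t * y) '' Dif (FreeGroup.mk w) k (!i) with hZdef
    have hZfin : Z.Finite := ih.1.image _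
    have hZcard : Z.ncard = (Dif (FreeGroup.mk w) k (!i)).ncard :=
      ncard_image_of_injective _ (mul_right_injective t)
    have hmem : ∀ y, y ∈ Z ↔ ¬ ((t * FreeGroup.mk w)⁻¹ * y ∈ S k ↔ t⁻¹ * y ∈ S (!i)) := by
      intro y
      rw [hZdef, mem_image]
      constructor
      · rintro ⟨z, hz, rfl⟩
        have : (t * FreeGroup.mk w)⁻¹ * (t * z) = (FreeGroup.mk w)⁻¹ * z := by group
        rw [this, inv_mul_cancel_left]
        exact hz
      · intro hy
        refine ⟨t⁻¹ * y, ?_, by simp⟩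
        change ¬ (_ ↔ _)
        have : (FreeGroup.mk w)⁻¹ * (t⁻¹ * y) = (t * FreeGroup.mk w)⁻¹ * y := by group
        rw [this]
        exact hy
    have htr : ∀ y, t⁻¹ * y ∈ S (!i) ↔ (y ∈ S i ∧ y ≠ FreeGroup.mk x) := by
      intro y
      rw [ht, mk_true_inv]
      exact trans x i hx hc y
    have hxS : FreeGroup.mk x ∈ S i := by
      change c _ _
      rw [FreeGroup.toWord_mk, hx]
      exact hc
    rw [hmul]
    have := toggle Z (Dif (t * FreeGroup.mk w) k i) (FreeGroup.mk x) ?_ ?_ hZfin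
    · refine ⟨this.1, this.2.trans ?_⟩
      rw [hZcard, ih.2]
      cases i <;> cases k <;> simp
    · intro y hy
      rw [hmem y, htr y]
      change ¬ (_ ↔ _) ↔ _
      simp [hy]
    · rw [hmem, htr]
      change ¬ (_ ↔ _) ↔ _
      simp [hxS]
  | @neg x i w k hx hc h ih =>
    set t := FreeGroup.mk [(enc x i, false)] with ht
    have hmul : FreeGroup.mk ((enc x i, false) :: w) = t * FreeGroup.mk w := by
      rw [ht, FreeGroup.mul_mk]; rfl
    set Z : Set (FreeGroup ℕ) := (fun y => t * y) '' Dif (FreeGroup.mk w) k i with hZdef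
    have hZfin : Z.Finite := ih.1.image _
    have hZcard : Z.ncard = (Dif (FreeGroup.mk w) k i).ncard :=
      ncard_image_of_injective _ (mul_right_injective t)
    have hmem : ∀ y, y ∈ Z ↔ ¬ ((t * FreeGroup.mk w)⁻¹ * y ∈ S k ↔ t⁻¹ * y ∈ S i) := by
      intro y
      rw [hZdef, mem_image]
      constructor
      · rintro ⟨z, hz, rfl⟩
        have : (t * FreeGroup.mk w)⁻¹ * (t * z) = (FreeGroup.mk w)⁻¹ * z := by group
        rw [this, inv_mul_cancel_left]
        exact hz
      · intro hy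
        refine ⟨t⁻¹ * y, ?_, by simp⟩
        change ¬ (_ ↔ _)
        have : (FreeGroup.mk w)⁻¹ * (t⁻¹ * y) = (t * FreeGroup.mk w)⁻¹ * y := by group
        rw [this]
        exact hy
    -- y ∈ S (!i) ↔ t⁻¹ y ∈ S i ∧ t⁻¹ y ≠ mk x
    have htr : ∀ y, y ∈ S (!i) ↔ (t⁻¹ * y ∈ S i ∧ t⁻¹ * y ≠ FreeGroup.mk x) := by
      intro y
      have := trans x i hx hc (t⁻¹ * y)
      rw [← ht, mul_inv_cancel_left] at this
      exact this
    have hxS : FreeGroup.mk x ∈ S i := by
      change c _ _
      rw [FreeGroup.toWord_mk, hx]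
      exact hc
    rw [hmul]
    have := toggle Z (Dif (t * FreeGroup.mk w) k (!i)) (t * FreeGroup.mk x) ?_ ?_ hZfin
    · refine ⟨this.1, this.2.trans ?_⟩
      rw [hZcard, ih.2]
      cases i <;> cases k <;> simp
    · intro y hy
      have hy' : t⁻¹ * y ≠ FreeGroup.mk x := by
        intro h; apply hy; rw [← h]; simp
      rw [hmem y]
      change ¬ (_ ↔ _) ↔ _
      rw [htr y]
      simp [hy']
    · rw [hmem]
      change ¬ (_ ↔ _) ↔ _
      rw [htr]
      simp [hxS]

/-- Rigidity: a translate of `S k` inside `S j` comes from a path. -/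
theorem rigid (g : FreeGroup ℕ) (k j : Bool) (h : ∀ s ∈ S k, g * s ∈ S j) : Path g.toWord j k := by
  -- two one-letter elements of S k
  have hn1 : c [(enc [] k, true)] k := by
    rw [c_pos]
    exact ⟨FreeGroup.reduce_nil, c_nil _, rfl, c_nil _⟩
  have hn2 : c [(enc [(enc [] k, true)] k, true)] k := by
    rw [c_pos]
    exact ⟨FreeGroup.reduce_singleton _, hn1, rfl, c_nil _⟩
  have hne : enc [] k ≠ enc [(enc [] k, true)] k := by
    intro h
    have := (enc_inj h).1
    simp at this
  -- choose a letter that does not cancel with the last letter of g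
  obtain ⟨a, ha, hred⟩ : ∃ a : ℕ × Bool, c [a] k ∧ FreeGroup.IsReduced (g.toWord ++ [a]) := by
    rcases List.eq_nil_or_concat g.toWord with hw | ⟨w', ℓ, hw⟩
    · refine ⟨_, hn1, ?_⟩
      rw [hw]
      exact FreeGroup.IsReduced.singleton
    · have hr : FreeGroup.IsReduced (w' ++ [ℓ]) := by
        rw [← List.concat_eq_append, ← hw]
        exact FreeGroup.isReduced_toWord
      have key : ∀ a : ℕ × Bool, (ℓ.1 = a.1 → ℓ.2 = a.2) →
          FreeGroup.IsReduced (g.toWord ++ [a]) := by
        intro a haℓ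
        rw [hw, List.concat_eq_append]
        have h2 : FreeGroup.IsReduced ([ℓ] ++ [a]) := by
          rw [List.singleton_append, FreeGroup.isReduced_cons_cons]
          exact ⟨haℓ, FreeGroup.IsReduced.singleton⟩
        exact FreeGroup.IsReduced.append_overlap hr h2 (by simp)
      by_cases h1 : ℓ.1 = enc [] k
      · refine ⟨_, hn2, key _ ?_⟩
        intro h2
        exact absurd (h1.symm.trans h2) hne
      · exact ⟨_, hn1, key _ (fun h2 => absurd h2 h1)⟩
  have haS : FreeGroup.mk [a] ∈ S k := by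
    change c _ _
    rw [FreeGroup.toWord_mk, FreeGroup.reduce_singleton]
    exact ha
  have h1 : c (g.toWord ++ [a]) j := by
    have h2 : c (g * FreeGroup.mk [a]).toWord j := h _ haS
    rw [FreeGroup.toWord_mul, FreeGroup.toWord_mk, FreeGroup.reduce_singleton,
      hred.reduce_eq] at h2
    exact h2
  obtain ⟨k', hk', hs⟩ := path_of_append _ _ _ h1
  rwa [level_unique hs ha] at hk'

theorem dif_of_subset (g : FreeGroup ℕ) (k j : Bool) (h : ∀ s ∈ S k, g * s ∈ S j) :
    (Dif g k j).Finite ∧ (Even (Dif g k j).ncard ↔ j = k) := by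
  have := dif_path (rigid g k j h)
  rwa [FreeGroup.mk_toWord] at this

/-- no translate of `S k` equals `S j` when `j ≠ k` -/
theorem no_translate (g : FreeGroup ℕ) (k j : Bool) (h : ∀ y, g⁻¹ * y ∈ S k ↔ y ∈ S j) :
    j = k := by
  have h1 : ∀ s ∈ S k, g * s ∈ S j := by
    intro s hs
    rw [← h (g * s), inv_mul_cancel_left]
    exact hs
  have h2 := dif_of_subset g k j h1
  have h3 : Dif g k j = ∅ := by
    ext y
    simp [Dif, h y]
  rw [h3] at h2
  exact h2.2.1 (by simp)

/-- cofinite subsets are translates -/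
theorem cofinite (n : ℕ) : ∀ (X : Finset (FreeGroup ℕ)) (i : Bool), X.card = n →
    (∀ x ∈ X, x ∈ S i) → ∃ (g : FreeGroup ℕ) (j : Bool),
      ∀ y, (y ∈ S i ∧ y ∉ X) ↔ g⁻¹ * y ∈ S j := by
  classical
  induction n with
  | zero =>
    intro X i hX _
    rw [Finset.card_eq_zero] at hX
    subst hX
    exact ⟨1, i, by simp⟩
  | succ n ih =>
    intro X i hX hXS
    obtain ⟨x, hx⟩ : X.Nonempty := by
      rw [← Finset.card_pos, hX]; exact Nat.succ_pos _
    set t := FreeGroup.mk [(enc x.toWord i, true)] with ht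
    have htr : ∀ y, t⁻¹ * y ∈ S (!i) ↔ (y ∈ S i ∧ y ≠ x) := by
      intro y
      rw [ht, mk_true_inv]
      have := trans x.toWord i (FreeGroup.reduce_toWord _) (hXS x hx) y
      rw [FreeGroup.mk_toWord] at this
      exact this
    set X' : Finset (FreeGroup ℕ) := (X.erase x).image (fun y => t⁻¹ * y) with hX'
    have hcard : X'.card = n := by
      rw [hX', Finset.card_image_of_injective _ (mul_right_injective _), Finset.card_erase_of_mem hx,
        hX]
      rfl
    have hX'S : ∀ y ∈ X', y ∈ S (!i) := by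
      intro y hy
      rw [hX', Finset.mem_image] at hy
      obtain ⟨z, hz, rfl⟩ := hy
      rw [Finset.mem_erase] at hz
      exact (htr z).2 ⟨hXS z hz.2, hz.1⟩
    obtain ⟨g, j, hg⟩ := ih X' (!i) hcard hX'S
    refine ⟨t * g, j, fun y => ?_⟩
    have h1 := hg (t⁻¹ * y)
    have h2 : (t * g)⁻¹ * y = g⁻¹ * (t⁻¹ * y) := by group
    rw [h2, ← h1, htr y]
    have h3 : t⁻¹ * y ∈ X' ↔ (y ≠ x ∧ y ∈ X) := by
      rw [hX', Finset.mem_image]
      constructor
      · rintro ⟨z, hz, hzy⟩
        have : z = y := mul_left_cancel hzy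
        rw [← this]
        exact Finset.mem_erase.1 hz
      · intro hy
        exact ⟨y, Finset.mem_erase.2 hy, rfl⟩
    rw [h3]
    constructor
    · rintro ⟨hy1, hy2⟩
      exact ⟨⟨hy1, fun h => hy2 (h ▸ hx)⟩, fun h => hy2 h.2⟩
    · rintro ⟨⟨hy1, hy2⟩, hy3⟩
      exact ⟨hy1, fun h => hy3 ⟨hy2, h⟩⟩

/-- A set between a translate of `S i` and `S i` is a translate of some `S j`. -/
theorem between (i : Bool) (N : Set (FreeGroup ℕ)) (hN : N ⊆ S i) (g : FreeGroup ℕ)
    (hg : ∀ s ∈ S i, g * s ∈ N) : ∃ (h : FreeGroup ℕ) (j : Bool), ∀ y, y ∈ N ↔ h⁻¹ * y ∈ S j := by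
  classical
  have h1 := (dif_of_subset g i i (fun s hs => hN (hg s hs))).1
  have h2 : (S i \ N).Finite := by
    refine h1.subset ?_
    rintro y ⟨hy1, hy2⟩ hiff
    apply hy2
    have := hg _ (hiff.2 hy1)
    rwa [mul_inv_cancel_left] at this
  obtain ⟨h, j, hj⟩ := cofinite _ h2.toFinset i rfl (fun x hx => ((h2.mem_toFinset).1 hx).1)
  refine ⟨h, j, fun y => ?_⟩
  rw [← hj y, h2.mem_toFinset]
  constructor
  · intro hy
    exact ⟨hN hy, fun h => h.2 hy⟩
  · rintro ⟨h3, h4⟩
    by_contra h5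
    exact h4 ⟨h3, h5⟩

end Pool.Agent.H743R3.Sib
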