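import Pool.Agent.H743R3.SibB
import Pool.Agent.H743R3.SibC

set_option autoImplicit false

open FirstOrder FirstOrder.Language Set

namespace Pool.Agent.H743R3.Sib

/-- the ambient group -/
abbrev Gp := FreeGroup ℕ
/-- the language -/
abbrev Lg := LG Gp
/-- the structure -/
abbrev Ms : Type := ↥(S false)

instance : Countable Gp := FreeGroup.toWord_injective.countable

instance : Countable Lg.Symbols := by
  have h1 : Countable (Σ l, Lg.Relations l) := by
    have : Function.Surjective (fun a : Gp => (⟨2, Rel.r a⟩ : Σ l, Lg.Relations l)) := by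
      rintro ⟨l, r⟩
      cases r with
      | r a => exact ⟨a, rfl⟩
    exact this.countable
  have h2 : Countable (Σ l, Lg.Functions l) := by
    have : IsEmpty (Σ l, Lg.Functions l) := ⟨fun x => nomatch x.2⟩
    infer_instance
  unfold Language.Symbols
  infer_instance

/-- the underlying subset of the group of a substructure -/
def NG (N : Lg.Substructure Ms) : Set Gp := {y | ∃ h : y ∈ S false, (⟨y, h⟩ : Ms) ∈ N}

theorem NG_sub (N : Lg.Substructure Ms) : NG N ⊆ S false := fun _ h => h.1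

theorem mem_NG {N : Lg.Substructure Ms} (x : N) : ((x : Ms) : Gp) ∈ NG N := ⟨(x : Ms).2, x.2⟩

theorem trans_of_embedding {A B : Type} [Lg.Structure A] [Lg.Structure B] (eA : A → Gp)
    (eB : B → Gp)
    (hA : ∀ (a : Gp) (x : Fin 2 → A), Structure.RelMap (R a : Lg.Relations 2) x ↔
      eA (x 1) = eA (x 0) * a)
    (hB : ∀ (a : Gp) (x : Fin 2 → B), Structure.RelMap (R a : Lg.Relations 2) x ↔
      eB (x 1) = eB (x 0) * a)
    (f : A ↪[Lg] B) (x0 : A) : ∀ x, eB (f x) = eB (f x0) * (eA x0)⁻¹ * eA x := by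
  intro x
  have h1 : Structure.RelMap (R ((eA x0)⁻¹ * eA x) : Lg.Relations 2) ![x0, x] := by
    rw [hA]; simp
  have h2 := (f.map_rel (R ((eA x0)⁻¹ * eA x) : Lg.Relations 2) ![x0, x]).2 h1
  rw [hB] at h2
  simp only [Function.comp_apply, Matrix.cons_val_one, Matrix.cons_val_zero] at h2
  rw [mul_assoc]
  exact h2

theorem relMap_sub (N : Lg.Substructure Ms) (a : Gp) (x : Fin 2 → N) :
    Structure.RelMap (R a : Lg.Relations 2) x ↔
      (((x 1 : N) : Ms) : Gp) = (((x 0 : N) : Ms) : Gp) * a := Iff.rfl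

/-- two substructures that are translates of each other are isomorphic -/
theorem equiv_of_translate (N N' : Lg.Substructure Ms) (g : Gp)
    (h : ∀ y, y ∈ NG N ↔ g * y ∈ NG N') : Nonempty (N ≃[Lg] N') := by
  refine ⟨⟨⟨fun x => ⟨⟨g * ((x : Ms) : Gp), ((h _).1 (mem_NG x)).1⟩, ((h _).1 (mem_NG x)).2⟩,
    fun x => ⟨⟨g⁻¹ * ((x : Ms) : Gp), ?_⟩, ?_⟩, ?_, ?_⟩, ?_, ?_⟩⟩
  · exact ((h _).2 (by rw [mul_inv_cancel_left]; exact mem_NG x)).1
  · exact ((h _).2 (by rw [mul_inv_cancel_left]; exact mem_NG x)).2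
  · intro x
    apply Subtype.ext; apply Subtype.ext
    simp
  · intro x
    apply Subtype.ext; apply Subtype.ext
    simp
  · intro n f
    exact nomatch f
  · intro n r x
    cases r with
    | r a =>
      change g * _ = g * _ * a ↔ _ = _ * a
      rw [mul_assoc, mul_right_inj]

/-- the type of siblings -/
abbrev Sib := {N : Lg.Substructure Ms // Nonempty (Lg.Embedding Ms ↥N)}

theorem one_mem (i : Bool) : (1 : Gp) ∈ S i := by
  change c _ _
  rw [FreeGroup.toWord_one]
  exact c_nil i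

theorem sib_class (N : Sib) : ∃ (h : Gp) (j : Bool), ∀ y, y ∈ NG N.1 ↔ h⁻¹ * y ∈ S j := by
  obtain ⟨f⟩ := N.2
  have h1 := trans_of_embedding (A := Ms) (B := N.1) (fun x => (x : Gp)) (fun x => ((x : Ms) : Gp))
    (fun a x => Iff.rfl) (fun a x => Iff.rfl) f ⟨1, one_mem false⟩
  refine between false (NG N.1) (NG_sub N.1)
    ((((f ⟨1, one_mem false⟩ : N.1) : Ms) : Gp) * ((1 : Gp))⁻¹) ?_
  intro s hs
  have h2 := h1 ⟨s, hs⟩
  simp only at h2
  rw [← h2]
  exact mem_NG _

/-- the relation of isomorphism -/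
abbrev rel : Sib → Sib → Prop := fun N N' => Nonempty (Lg.Equiv ↥N.1 ↥N'.1)

theorem rel_equiv : Equivalence rel where
  refl N := ⟨Language.Equiv.refl _ _⟩
  symm := fun ⟨e⟩ => ⟨e.symm⟩
  trans := fun ⟨e⟩ ⟨e'⟩ => ⟨e'.comp e⟩

theorem finite_quot : Finite (Quot rel) := by
  classical
  choose h j hj using sib_class
  have hinj : Function.Injective (fun q : Quot rel => j q.out) := by
    intro q q' hq
    simp only at hq
    rw [← q.out_eq, ← q'.out_eq]
    apply Quot.sound
    refine equiv_of_translate _ _ (h q'.out * (h q.out)⁻¹) ?_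
    intro y
    rw [hj, hj, hq]
    have : (h q'.out)⁻¹ * (h q'.out * (h q.out)⁻¹ * y) = (h q.out)⁻¹ * y := by group
    rw [this]
  exact Finite.of_injective _ hinj

/-- the substructure obtained by deleting the identity -/
def N1 : Lg.Substructure Ms where
  carrier := {x | (x : Gp) ≠ 1}
  fun_mem := fun f => nomatch f

theorem NG_N1 (y : Gp) : y ∈ NG N1 ↔ y ∈ S false ∧ y ≠ 1 :=
  ⟨fun ⟨h, h'⟩ => ⟨h, h'⟩, fun ⟨h, h'⟩ => ⟨h, h'⟩⟩

theorem NG_top (y : Gp) : y ∈ NG ⊤ ↔ y ∈ S false :=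
  ⟨fun ⟨h, _⟩ => h, fun h => ⟨h, trivial⟩⟩

theorem trans_one (i : Bool) (y : Gp) :
    (FreeGroup.mk [(enc [] i, true)])⁻¹ * y ∈ S (!i) ↔ (y ∈ S i ∧ y ≠ 1) := by
  rw [mk_true_inv]
  exact trans [] i FreeGroup.reduce_nil (c_nil i) y

/-- the embedding of the structure in the substructure with the identity deleted -/
theorem embed_N1 : Nonempty (Lg.Embedding Ms ↥N1) := by
  set t := FreeGroup.mk [(enc [] false, true)] with ht
  set u := FreeGroup.mk [(enc [] true, true)] with hu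
  have key : ∀ y : Ms, (t * (u * y)) ∈ NG N1 := by
    intro y
    rw [NG_N1, ← trans_one false, ← ht, inv_mul_cancel_left]
    have := (trans_one true (u * y)).1 (by rw [← hu, inv_mul_cancel_left]; exact y.2)
    exact this.1
  refine ⟨⟨⟨fun y => ⟨⟨t * (u * y), (key y).1⟩, (key y).2⟩, ?_⟩, ?_, ?_⟩⟩
  · intro x y hxy
    have : t * (u * (x : Gp)) = t * (u * (y : Gp)) := by
      have h1 := congrArg (fun z : N1 => ((z : Ms) : Gp)) hxy
      exact h1
    exact Subtype.ext (mul_left_cancel (mul_left_cancel this))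
  · intro n f
    exact nomatch f
  · intro n r x
    cases r with
    | r a =>
      change t * (u * _) = t * (u * _) * a ↔ _ = _ * a
      rw [mul_assoc, mul_assoc, mul_right_inj, mul_right_inj]

theorem embed_top : Nonempty (Lg.Embedding Ms ↥(⊤ : Lg.Substructure Ms)) :=
  ⟨Substructure.topEquiv.symm.toEmbedding⟩

theorem not_rel : ¬ rel ⟨⊤, embed_top⟩ ⟨N1, embed_N1⟩ := by
  rintro ⟨e⟩
  simp only at e
  have h1 := trans_of_embedding (A := (⊤ : Lg.Substructure Ms)) (B := N1)
    (fun x => ((x : Ms) : Gp)) (fun x => ((x : Ms) : Gp))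
    (fun a x => Iff.rfl) (fun a x => Iff.rfl) e.toEmbedding ⟨⟨1, one_mem false⟩, trivial⟩
  set g : Gp := (((e.toEmbedding ⟨⟨1, one_mem false⟩, trivial⟩ : N1) : Ms) : Gp) * ((1 : Gp))⁻¹
    with hg
  have h2 : ∀ y, g⁻¹ * y ∈ S false ↔ (y ∈ S false ∧ y ≠ 1) := by
    intro y
    rw [← NG_N1]
    constructor
    · intro hy
      have h3 := h1 ⟨⟨g⁻¹ * y, hy⟩, trivial⟩
      have h3' : (((e.toEmbedding ⟨⟨g⁻¹ * y, hy⟩, trivial⟩ : N1) : Ms) : Gp) = y := by
        rw [h3]; exact mul_inv_cancel_left g y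
      rw [← h3']
      exact mem_NG _
    · intro hy
      obtain ⟨z, hz⟩ := e.surjective ⟨⟨y, hy.1⟩, hy.2⟩
      have h3 := h1 z
      have h4 : (((e.toEmbedding z : N1) : Ms) : Gp) = y := by
        have h5 := congrArg (fun z : N1 => ((z : Ms) : Gp)) hz
        exact h5
      rw [h4] at h3
      rw [h3, inv_mul_cancel_left]
      exact (z : Ms).2
  -- hence `S true` is a translate of `S false`
  set t := FreeGroup.mk [(enc [] false, true)] with ht
  have h3 : ∀ y, (t⁻¹ * g)⁻¹ * y ∈ S false ↔ y ∈ S true := by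
    intro y
    have h4 : (t⁻¹ * g)⁻¹ * y = g⁻¹ * (t * y) := by group
    rw [h4, h2, ← trans_one false, ← ht, inv_mul_cancel_left]
    rfl
  have := no_translate _ _ _ h3
  exact absurd this (by simp)

theorem main : ¬ (Cardinal.mk (Quot rel) = 1 ∨ Cardinal.mk (Quot rel) = Cardinal.aleph0 ∨
    Cardinal.mk (Quot rel) = Cardinal.continuum) := by
  have hfin := finite_quot
  have hlt : Cardinal.mk (Quot rel) < Cardinal.aleph0 := Cardinal.lt_aleph0_of_finite _
  rintro (h | h | h)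
  · rw [Cardinal.eq_one_iff_unique] at h
    obtain ⟨h1, -⟩ := h
    have h2 : Quot.mk rel ⟨⊤, embed_top⟩ = Quot.mk rel ⟨N1, embed_N1⟩ := Subsingleton.elim _ _
    have h3 := Quot.eqvGen_exact h2
    rw [rel_equiv.eqvGen_iff] at h3
    exact not_rel h3
  · exact absurd h hlt.ne
  · rw [h] at hlt
    exact absurd Cardinal.aleph0_le_continuum (not_le.2 hlt)

end Pool.Agent.H743R3.Sib
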